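import Pool.Agent.Lib.MP_6bc78b_nt.GP.H71.Cmbx
import Pool.Agent.Lib.MP_6bc78b_nt.GP.H3.Defs8

/-! Project GP8 (MP_6bc78b_nt): row CMB2X, a high power of a sum over a block of primes times a
Dirichlet polynomial. -/

set_option autoImplicit false

open Complex Filter Topology MeasureTheory ArithmeticFunction Set
open scoped ENNReal

namespace Pool.Agent.Lib.MP_6bc78b_nt.GP.H71

open Pool.Agent.Lib.MP_6bc78b_nt.GP.G7

/-- The products of at most `k` elements of `S`. -/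
noncomputable def prods (k : ℕ) (S : Finset ℕ) : Finset ℕ := by
  classical exact ((Finset.range (k + 1)).sigma
    fun j => Fintype.piFinset (fun _ : Fin j => S)).image (fun x => ∏ i, x.2 i)

theorem mem_prods_of_dvd {k : ℕ} {S : Finset ℕ} (hS : ∀ q ∈ S, q.Prime) {q : Fin k → ℕ}
    (hq : ∀ i, q i ∈ S) {d : ℕ} (hd : d ∣ ∏ i, q i) : d ∈ prods k S := by
  classical
  have hne : (∏ i, q i) ≠ 0 := Finset.prod_ne_zero_iff.2 fun i _ => (hS _ (hq i)).ne_zero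
  have hd0 : d ≠ 0 := ne_zero_of_dvd_ne_zero hne hd
  have h1 : (List.ofFn q).Perm (∏ i, q i).primeFactorsList :=
    Nat.primeFactorsList_unique (by rw [List.prod_ofFn]) fun p hp => by
      obtain ⟨i, rfl⟩ := (List.mem_ofFn' q p).1 hp
      exact hS _ (hq i)
  have h2 := Nat.primeFactorsList_sublist_of_dvd hd hne
  have hlen : d.primeFactorsList.length ≤ k := by
    have := h2.length_le
    rw [← h1.length_eq, List.length_ofFn] at this
    exact this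
  have hmem : ∀ p ∈ d.primeFactorsList, p ∈ S := fun p hp => by
    have h3 := h1.mem_iff.2 (h2.subset hp)
    obtain ⟨i, rfl⟩ := (List.mem_ofFn' q p).1 h3
    exact hq i
  rw [prods]
  refine Finset.mem_image.2 ⟨⟨d.primeFactorsList.length, fun i => d.primeFactorsList.get i⟩,
    Finset.mem_sigma.2 ⟨Finset.mem_range.2 (by simp only; omega),
      Fintype.mem_piFinset.2 fun i => hmem _ (List.get_mem _ _)⟩, ?_⟩
  simp only
  rw [← List.prod_ofFn, List.ofFn_get, Nat.prod_primeFactorsList hd0]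

theorem prods_pos {k : ℕ} {S : Finset ℕ} (hS : ∀ q ∈ S, q.Prime) {e : ℕ} (he : e ∈ prods k S) :
    0 < e := by
  classical
  rw [prods] at he
  obtain ⟨x, hx, rfl⟩ := Finset.mem_image.1 he
  exact Finset.prod_pos fun i _ =>
    (hS _ (Fintype.mem_piFinset.1 (Finset.mem_sigma.1 hx).2 i)).pos

theorem sum_image_le' {α : Type} (s : Finset α) (g : α → ℕ) (f : ℕ → ℝ) (hf : ∀ n, 0 ≤ f n) :
    ∑ e ∈ s.image g, f e ≤ ∑ x ∈ s, f (g x) := by
  classical
  rw [← Finset.sum_fiberwise_of_maps_to (g := g) (t := s.image g)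
    (fun x hx => Finset.mem_image_of_mem g hx)]
  refine Finset.sum_le_sum fun e he => ?_
  obtain ⟨x, hx, rfl⟩ := Finset.mem_image.1 he
  exact Finset.single_le_sum (f := fun y => f (g y)) (fun y _ => hf _)
    (Finset.mem_filter.2 ⟨hx, rfl⟩)

theorem sum_prods_inv (k : ℕ) (S : Finset ℕ) (h : ∑ q ∈ S, 1 / (q : ℝ) ≤ 1) :
    ∑ e ∈ prods k S, 1 / (e : ℝ) ≤ k + 1 := by
  classical
  have h0 : 0 ≤ ∑ q ∈ S, 1 / (q : ℝ) := Finset.sum_nonneg fun _ _ => by positivity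
  rw [prods]
  refine (sum_image_le' _ _ (fun n => 1 / (n : ℝ)) fun n => by positivity).trans ?_
  rw [Finset.sum_sigma]
  have h1 : ∀ j ∈ Finset.range (k + 1), ∑ x ∈ Fintype.piFinset (fun _ : Fin j => S),
      1 / ((∏ i, x i : ℕ) : ℝ) ≤ 1 := fun j _ => by
    have h2 : ∑ x ∈ Fintype.piFinset (fun _ : Fin j => S), 1 / ((∏ i, x i : ℕ) : ℝ) =
        (∑ q ∈ S, 1 / (q : ℝ)) ^ j := by
      have h3 : (∑ q ∈ S, 1 / (q : ℝ)) ^ j =
          ∑ x ∈ Fintype.piFinset (fun _ : Fin j => S), ∏ i, 1 / ((x i : ℕ) : ℝ) := by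
        rw [← Finset.prod_univ_sum (fun _ : Fin j => S) (fun _ q => 1 / ((q : ℕ) : ℝ)),
          Finset.prod_const, Finset.card_univ, Fintype.card_fin]
      rw [h3]
      refine Finset.sum_congr rfl fun x _ => ?_
      rw [Finset.prod_div_distrib, Finset.prod_const_one, Nat.cast_prod]
    rw [h2]
    exact pow_le_one₀ h0 h
  refine (Finset.sum_le_sum h1).trans ?_
  rw [Finset.sum_const, Finset.card_range, nsmul_eq_mul, mul_one]
  push_cast
  exact le_rfl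

/-- The number of the divisors of `m` which are products of at most `k` elements of `S`. -/
noncomputable def tau (k : ℕ) (S : Finset ℕ) (m : ℕ) : ℕ :=
  ((prods k S).filter (fun e => e ∣ m)).card

theorem card_reps2 (k : ℕ) (S : Finset ℕ) (hS : ∀ q ∈ S, q.Prime) (L1 L2 : ℕ)
    (a : ℕ × (Fin k → ℕ)) (ha : a ∈ reps k S L1 L2) :
    ((reps k S L1 L2).filter (fun x => nu x = nu a)).card ≤
      k.factorial * (2 ^ k * tau k S a.1) := by
  classical
  obtain ⟨h1, h2⟩ := Finset.mem_product.1 ha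
  have hq : ∀ i, (a.2 i).Prime := fun i => hS _ (Fintype.mem_piFinset.1 h2 i)
  have he0 : (∏ i, a.2 i) ≠ 0 := Finset.prod_ne_zero_iff.2 fun i _ => (hq i).ne_zero
  have hn : nu a ≠ 0 := by
    refine mul_ne_zero ?_ he0
    have := (Finset.mem_Ioc.1 h1).1
    omega
  -- the products `e'` of the representations
  have h3 : ((reps k S L1 L2).filter (fun x => nu x = nu a)).card ≤ k.factorial *
      (((Fintype.piFinset (fun _ : Fin k => S)).image (fun q => ∏ i, q i)).filter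
        (fun e => e ∣ nu a)).card := by
    refine Finset.card_le_mul_card_image_of_maps_to (f := fun a => ∏ i, a.2 i)
      (fun b hb => ?_) _ fun e _ => ?_
    · rw [Finset.mem_filter] at hb
      exact Finset.mem_filter.2 ⟨Finset.mem_image.2 ⟨b.2, (Finset.mem_product.1 hb.1).2, rfl⟩,
        ⟨b.1, by rw [← hb.2, nu, mul_comm]⟩⟩
    · refine le_trans ?_ (card_tuples k S hS e)
      refine Finset.card_le_card_of_injOn (fun a => a.2) (fun a ha => ?_)
        (fun b hb c hc hbc => ?_)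
      · have ha' := Finset.mem_filter.1 (Finset.mem_coe.1 ha)
        have h1 := Finset.mem_filter.1 ha'.1
        exact Finset.mem_coe.2 (Finset.mem_filter.2 ⟨(Finset.mem_product.1 h1.1).2, ha'.2⟩)
      · have hb' := Finset.mem_filter.1 (Finset.mem_coe.1 hb)
        have hc' := Finset.mem_filter.1 (Finset.mem_coe.1 hc)
        have h1 := (Finset.mem_filter.1 hb'.1).2
        have h2 := (Finset.mem_filter.1 hc'.1).2
        simp only at hbc
        have h3 : (∏ i, c.2 i) ≠ 0 := fun h0 => hn (by rw [← h2, nu, h0, mul_zero])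
        have h4 : b.1 * ∏ i, c.2 i = c.1 * ∏ i, c.2 i := by
          have h5 : nu b = nu c := h1.trans h2.symm
          rw [nu, nu, hbc] at h5
          exact h5
        exact Prod.ext (Nat.eq_of_mul_eq_mul_right (Nat.pos_of_ne_zero h3) h4) hbc
  refine h3.trans (Nat.mul_le_mul le_rfl ?_)
  have h4 : (((Fintype.piFinset (fun _ : Fin k => S)).image (fun q => ∏ i, q i)).filter
      (fun e => e ∣ nu a)).card ≤
      ((∏ i, a.2 i).divisors ×ˢ (prods k S).filter (fun e => e ∣ a.1)).card := by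
    refine Finset.card_le_card_of_injOn
      (fun e => (Nat.gcd e (∏ i, a.2 i), e / Nat.gcd e (∏ i, a.2 i))) (fun e he => ?_)
      (fun e _ e' _ hee => ?_)
    · obtain ⟨he1, he2⟩ := Finset.mem_filter.1 (Finset.mem_coe.1 he)
      obtain ⟨q, hq1, rfl⟩ := Finset.mem_image.1 he1
      have hg : 0 < Nat.gcd (∏ i, q i) (∏ i, a.2 i) :=
        Nat.gcd_pos_of_pos_right _ (Nat.pos_of_ne_zero he0)
      refine Finset.mem_coe.2 (Finset.mem_product.2 ⟨Nat.mem_divisors.2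
        ⟨Nat.gcd_dvd_right _ _, he0⟩, Finset.mem_filter.2 ⟨?_, ?_⟩⟩)
      · exact mem_prods_of_dvd hS (fun i => Fintype.mem_piFinset.1 hq1 i)
          (Nat.div_dvd_of_dvd (Nat.gcd_dvd_left _ _))
      · have h5 := Nat.coprime_div_gcd_div_gcd hg
        refine h5.dvd_of_dvd_mul_right ?_
        refine Nat.dvd_of_mul_dvd_mul_right hg ?_
        rw [Nat.div_mul_cancel (Nat.gcd_dvd_left _ _), mul_assoc,
          Nat.div_mul_cancel (Nat.gcd_dvd_right _ _)]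
        exact he2
    · have h6 := (Prod.ext_iff.1 hee).1
      have h7 := (Prod.ext_iff.1 hee).2
      simp only at h6 h7
      calc e = e / Nat.gcd e (∏ i, a.2 i) * Nat.gcd e (∏ i, a.2 i) :=
            (Nat.div_mul_cancel (Nat.gcd_dvd_left _ _)).symm
        _ = e' / Nat.gcd e' (∏ i, a.2 i) * Nat.gcd e' (∏ i, a.2 i) := by rw [h7, h6]
        _ = e' := Nat.div_mul_cancel (Nat.gcd_dvd_left _ _)
  refine h4.trans ?_
  rw [Finset.card_product]
  refine Nat.mul_le_mul ?_ le_rfl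
  have h5 := card_divisors_prod_le (Finset.univ : Finset (Fin k)) a.2 (fun i _ => hq i)
  simpa using h5

/-- Interchange of the sums over `m` and over the divisors. -/
theorem sum_tau (k : ℕ) (S : Finset ℕ) (L1 L2 : ℕ) (f : ℕ → ℝ) :
    ∑ m ∈ Finset.Ioc L1 L2, (tau k S m : ℝ) * f m =
      ∑ e ∈ prods k S, ∑ m ∈ (Finset.Ioc L1 L2).filter (fun m => e ∣ m), f m := by
  classical
  have h1 : ∑ m ∈ Finset.Ioc L1 L2, (tau k S m : ℝ) * f m =
      ∑ m ∈ Finset.Ioc L1 L2, ∑ _e ∈ (prods k S).filter (fun e => e ∣ m), f m := by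
    refine Finset.sum_congr rfl fun m _ => ?_
    rw [Finset.sum_const, nsmul_eq_mul, tau]
  rw [h1]
  refine Finset.sum_comm' fun m e => ?_
  rw [Finset.mem_filter, Finset.mem_filter]
  tauto

theorem sum_mult (L1 L2 e : ℕ) (he : 0 < e) (f : ℕ → ℝ) (hf : ∀ n, 0 ≤ f n) :
    ∑ m ∈ (Finset.Ioc L1 L2).filter (fun m => e ∣ m), f m ≤
      ∑ n ∈ Finset.Ioc (L1 / e) (L2 / e), f (e * n) := by
  classical
  have hsub : (Finset.Ioc L1 L2).filter (fun m => e ∣ m) ⊆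
      (Finset.Ioc (L1 / e) (L2 / e)).image (fun n => e * n) := fun m hm => by
    rw [Finset.mem_filter, Finset.mem_Ioc] at hm
    obtain ⟨⟨h1, h2⟩, n, rfl⟩ := hm
    refine Finset.mem_image.2 ⟨n, Finset.mem_Ioc.2 ⟨?_, ?_⟩, rfl⟩
    · rw [Nat.div_lt_iff_lt_mul he, mul_comm]
      exact h1
    · rw [Nat.le_div_iff_mul_le he, mul_comm]
      exact h2
  calc _ ≤ ∑ m ∈ (Finset.Ioc (L1 / e) (L2 / e)).image (fun n => e * n), f m :=
        Finset.sum_le_sum_of_subset_of_nonneg hsub fun _ _ _ => hf _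
    _ = _ := Finset.sum_image fun a _ b _ hab => Nat.eq_of_mul_eq_mul_left he hab

theorem sum_Ioc_inv (A B : ℕ) (h : A < B) :
    ∑ n ∈ Finset.Ioc A B, 1 / (n : ℝ) ≤ 1 + Real.log ((B : ℝ) / (A + 1)) := by
  obtain ⟨d, rfl⟩ := Nat.exists_eq_add_of_lt h
  clear h
  induction d with
  | zero =>
    have h1 : Finset.Ioc A (A + 0 + 1) = {A + 1} := by
      ext x
      rw [Finset.mem_Ioc, Finset.mem_singleton]
      omega
    rw [h1, Finset.sum_singleton]
    push_cast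
    rw [add_zero, div_self (by positivity), Real.log_one, add_zero, div_le_one (by positivity)]
    have : (0 : ℝ) ≤ A := Nat.cast_nonneg _
    linarith
  | succ d ih =>
    have h1 : Finset.Ioc A (A + (d + 1) + 1) = insert (A + (d + 1) + 1)
        (Finset.Ioc A (A + d + 1)) := by
      ext x
      rw [Finset.mem_insert, Finset.mem_Ioc, Finset.mem_Ioc]
      omega
    rw [h1, Finset.sum_insert (by rw [Finset.mem_Ioc]; omega)]
    have hA : (0 : ℝ) ≤ A := Nat.cast_nonneg _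
    have hd : (0 : ℝ) ≤ d := Nat.cast_nonneg _
    have h2 : (1 : ℝ) / ((A + (d + 1) + 1 : ℕ) : ℝ) ≤
        Real.log (((A + (d + 1) + 1 : ℕ) : ℝ) / ((A + d + 1 : ℕ) : ℝ)) := by
      have h3 := Real.one_sub_inv_le_log_of_pos
        (x := ((A + (d + 1) + 1 : ℕ) : ℝ) / ((A + d + 1 : ℕ) : ℝ)) (by positivity)
      refine le_trans (le_of_eq ?_) h3
      push_cast
      field_simp
      ring
    have h4 : Real.log (((A + (d + 1) + 1 : ℕ) : ℝ) / (A + 1)) =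
        Real.log (((A + (d + 1) + 1 : ℕ) : ℝ) / ((A + d + 1 : ℕ) : ℝ)) +
          Real.log (((A + d + 1 : ℕ) : ℝ) / (A + 1)) := by
      rw [← Real.log_mul (by positivity) (by positivity)]
      congr 1
      field_simp
    rw [h4]
    linarith

theorem tau_sq (k : ℕ) (S : Finset ℕ) (hS : ∀ q ∈ S, q.Prime) (h : ∑ q ∈ S, 1 / (q : ℝ) ≤ 1)
    (M M' : ℝ) (hM : 0 < M) :
    ∑ m ∈ Finset.Ioc ⌊M⌋₊ ⌊M'⌋₊, (tau k S m : ℝ) * (1 / (m : ℝ) ^ 2) ≤ 2 / M * (k + 1) := by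
  classical
  rw [sum_tau]
  calc _ ≤ ∑ e ∈ prods k S, 2 / M * (1 / (e : ℝ)) := by
        refine Finset.sum_le_sum fun e he => ?_
        have he1 : 0 < e := prods_pos hS he
        have he0 : (0 : ℝ) < e := by exact_mod_cast he1
        refine (sum_mult _ _ e he1 (fun m => 1 / (m : ℝ) ^ 2) fun n => by positivity).trans ?_
        calc ∑ n ∈ Finset.Ioc (⌊M⌋₊ / e) (⌊M'⌋₊ / e), 1 / ((e * n : ℕ) : ℝ) ^ 2 =
              1 / (e : ℝ) ^ 2 * ∑ n ∈ Finset.Ioc (⌊M⌋₊ / e) (⌊M'⌋₊ / e), ((n : ℝ) ^ 2)⁻¹ := by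
              rw [Finset.mul_sum]
              refine Finset.sum_congr rfl fun f _ => ?_
              rw [Nat.cast_mul, mul_pow, one_div, mul_inv, one_div]
          _ ≤ 1 / (e : ℝ) ^ 2 * (2 / (((⌊M⌋₊ / e : ℕ) : ℝ) + 1)) := by
              refine mul_le_mul_of_nonneg_left ?_ (by positivity)
              refine le_trans (Finset.sum_le_sum_of_subset_of_nonneg (fun x hx => ?_)
                fun _ _ _ => by positivity) (sum_Ioo_inv_sq_le (⌊M⌋₊ / e) (⌊M'⌋₊ / e + 1))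
              rw [Finset.mem_Ioc] at hx
              rw [Finset.mem_Ioo]
              omega
          _ ≤ 1 / (e : ℝ) ^ 2 * (2 * e / M) := by
              refine mul_le_mul_of_nonneg_left ?_ (by positivity)
              have h5 : ⌊M⌋₊ < e * (⌊M⌋₊ / e + 1) := Nat.lt_mul_div_succ _ he1
              have h6 : (⌊M⌋₊ : ℝ) + 1 ≤ e * (((⌊M⌋₊ / e : ℕ) : ℝ) + 1) := by exact_mod_cast h5
              have h7 := (Nat.lt_floor_add_one M).le
              rw [div_le_div_iff₀ (by positivity) hM]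
              nlinarith
          _ = 2 / M * (1 / (e : ℝ)) := by field_simp
    _ = 2 / M * ∑ e ∈ prods k S, 1 / (e : ℝ) := by rw [Finset.mul_sum]
    _ ≤ _ := mul_le_mul_of_nonneg_left (sum_prods_inv k S h) (by positivity)

theorem tau_one (k : ℕ) (S : Finset ℕ) (hS : ∀ q ∈ S, q.Prime) (h : ∑ q ∈ S, 1 / (q : ℝ) ≤ 1)
    (M M' : ℝ) (hM : 0 < M) (hMM : M ≤ M') :
    ∑ m ∈ Finset.Ioc ⌊M⌋₊ ⌊M'⌋₊, (tau k S m : ℝ) * (1 / (m : ℝ)) ≤
      (1 + Real.log (M' / M)) * (k + 1) := by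
  classical
  have hM' : 0 < M' := hM.trans_le hMM
  have hlog : 0 ≤ Real.log (M' / M) := Real.log_nonneg ((one_le_div hM).2 hMM)
  rw [sum_tau]
  calc _ ≤ ∑ e ∈ prods k S, (1 + Real.log (M' / M)) * (1 / (e : ℝ)) := by
        refine Finset.sum_le_sum fun e he => ?_
        have he1 : 0 < e := prods_pos hS he
        have he0 : (0 : ℝ) < e := by exact_mod_cast he1
        refine (sum_mult _ _ e he1 (fun m => 1 / (m : ℝ)) fun n => by positivity).trans ?_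
        calc ∑ n ∈ Finset.Ioc (⌊M⌋₊ / e) (⌊M'⌋₊ / e), 1 / ((e * n : ℕ) : ℝ) =
              (∑ n ∈ Finset.Ioc (⌊M⌋₊ / e) (⌊M'⌋₊ / e), 1 / (n : ℝ)) * (1 / (e : ℝ)) := by
              rw [Finset.sum_mul]
              refine Finset.sum_congr rfl fun f _ => ?_
              rw [Nat.cast_mul, one_div, mul_inv, one_div, one_div, mul_comm]
          _ ≤ _ := by
              refine mul_le_mul_of_nonneg_right ?_ (by positivity)
              by_cases hAB : ⌊M⌋₊ / e < ⌊M'⌋₊ / e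
              · refine (sum_Ioc_inv _ _ hAB).trans ?_
                have h5 : ⌊M⌋₊ < e * (⌊M⌋₊ / e + 1) := Nat.lt_mul_div_succ _ he1
                have h6 : (⌊M⌋₊ : ℝ) + 1 ≤ e * (((⌊M⌋₊ / e : ℕ) : ℝ) + 1) := by
                  exact_mod_cast h5
                have h7 := (Nat.lt_floor_add_one M).le
                have h8 : (((⌊M'⌋₊ / e : ℕ) : ℝ)) * e ≤ M' := by
                  have h9 : ⌊M'⌋₊ / e * e ≤ ⌊M'⌋₊ := Nat.div_mul_le_self _ _
                  have h10 : (((⌊M'⌋₊ / e : ℕ) : ℝ)) * e ≤ (⌊M'⌋₊ : ℝ) := by exact_mod_cast h9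
                  exact h10.trans (Nat.floor_le hM'.le)
                have h9 : (0 : ℝ) < ((⌊M'⌋₊ / e : ℕ) : ℝ) := by
                  have : 0 < ⌊M'⌋₊ / e := (Nat.zero_le _).trans_lt hAB
                  exact_mod_cast this
                have h10 : (((⌊M'⌋₊ / e : ℕ) : ℝ)) / (((⌊M⌋₊ / e : ℕ) : ℝ) + 1) ≤ M' / M := by
                  rw [div_le_div_iff₀ (by positivity) hM]
                  have h11 : M ≤ e * (((⌊M⌋₊ / e : ℕ) : ℝ) + 1) := h7.trans h6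
                  calc (((⌊M'⌋₊ / e : ℕ) : ℝ)) * M ≤
                        (((⌊M'⌋₊ / e : ℕ) : ℝ)) * (e * (((⌊M⌋₊ / e : ℕ) : ℝ) + 1)) :=
                        mul_le_mul_of_nonneg_left h11 h9.le
                    _ = ((((⌊M'⌋₊ / e : ℕ) : ℝ)) * e) * (((⌊M⌋₊ / e : ℕ) : ℝ) + 1) := by ring
                    _ ≤ _ := mul_le_mul_of_nonneg_right h8 (by positivity)
                have h12 := Real.log_le_log (by positivity) h10
                linarith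
              · rw [Finset.Ioc_eq_empty hAB, Finset.sum_empty]
                linarith
    _ = (1 + Real.log (M' / M)) * ∑ e ∈ prods k S, 1 / (e : ℝ) := by rw [Finset.mul_sum]
    _ ≤ _ := mul_le_mul_of_nonneg_left (sum_prods_inv k S h) (by linarith)

/-- The number of the representations of `n`. -/
noncomputable def rn (k : ℕ) (S : Finset ℕ) (L1 L2 n : ℕ) : ℝ := by
  classical exact (((reps k S L1 L2).filter (fun a => nu a = n)).card : ℝ)

theorem sum_rn (P Q : ℝ) (k L1 L2 : ℕ) (i : ℕ) :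
    ∑ n ∈ Finset.Icc 1 (L2 * ⌊Q⌋₊ ^ k), rn k (qs P Q) L1 L2 n ^ 2 / (n : ℝ) ^ i ≤
      ((k.factorial : ℝ) * 2 ^ k) *
        ((∑ l ∈ Finset.Ioc L1 L2, (tau k (qs P Q) l : ℝ) * (1 / (l : ℝ) ^ i)) *
          (∑ q ∈ qs P Q, 1 / (q : ℝ) ^ i) ^ k) := by
  classical
  have hqs : ∀ q ∈ qs P Q, q.Prime := fun q hq => by
    rw [qs, Finset.mem_filter] at hq
    exact hq.2.1
  have h1 : ∑ n ∈ Finset.Icc 1 (L2 * ⌊Q⌋₊ ^ k), rn k (qs P Q) L1 L2 n ^ 2 / (n : ℝ) ^ i =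
      ∑ a ∈ reps k (qs P Q) L1 L2, rn k (qs P Q) L1 L2 (nu a) / (nu a : ℝ) ^ i := by
    rw [← Finset.sum_fiberwise_of_maps_to (g := nu) (fun a ha => nu_le ha)]
    refine Finset.sum_congr rfl fun n _ => ?_
    rw [Finset.sum_congr rfl (g := fun _ => rn k (qs P Q) L1 L2 n / (n : ℝ) ^ i)
      (fun a ha => by rw [(Finset.mem_filter.1 ha).2]), Finset.sum_const, nsmul_eq_mul, rn]
    ring
  have h2 : ∑ a ∈ reps k (qs P Q) L1 L2, rn k (qs P Q) L1 L2 (nu a) / (nu a : ℝ) ^ i ≤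
      ∑ a ∈ reps k (qs P Q) L1 L2, ((k.factorial : ℝ) * 2 ^ k) *
        (((tau k (qs P Q) a.1 : ℝ) * (1 / (a.1 : ℝ) ^ i)) *
          ∏ j, 1 / ((a.2 j : ℕ) : ℝ) ^ i) := by
    refine Finset.sum_le_sum fun a ha => ?_
    have h3 := card_reps2 k (qs P Q) hqs L1 L2 a ha
    have h4 : rn k (qs P Q) L1 L2 (nu a) ≤
        (k.factorial : ℝ) * (2 ^ k * tau k (qs P Q) a.1) := by
      rw [rn]
      exact_mod_cast h3
    have h5 : ∏ j, 1 / ((a.2 j : ℕ) : ℝ) ^ i = 1 / ((∏ j, a.2 j : ℕ) : ℝ) ^ i := by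
      rw [Finset.prod_div_distrib, Finset.prod_const_one, Finset.prod_pow, Nat.cast_prod]
    have h6 : (nu a : ℝ) ^ i = (a.1 : ℝ) ^ i * ((∏ j, a.2 j : ℕ) : ℝ) ^ i := by
      rw [nu, Nat.cast_mul, mul_pow]
    rw [h5, h6]
    calc _ ≤ (k.factorial : ℝ) * (2 ^ k * tau k (qs P Q) a.1) /
          ((a.1 : ℝ) ^ i * ((∏ j, a.2 j : ℕ) : ℝ) ^ i) :=
          div_le_div_of_nonneg_right h4 (by positivity)
      _ = _ := by
          rw [div_eq_mul_inv, mul_inv]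
          ring
  have h3 : ∑ a ∈ reps k (qs P Q) L1 L2, ((k.factorial : ℝ) * 2 ^ k) *
        (((tau k (qs P Q) a.1 : ℝ) * (1 / (a.1 : ℝ) ^ i)) *
          ∏ j, 1 / ((a.2 j : ℕ) : ℝ) ^ i) =
      ((k.factorial : ℝ) * 2 ^ k) *
        ((∑ l ∈ Finset.Ioc L1 L2, (tau k (qs P Q) l : ℝ) * (1 / (l : ℝ) ^ i)) *
          (∑ q ∈ qs P Q, 1 / (q : ℝ) ^ i) ^ k) := by
    rw [← Finset.mul_sum]
    congr 1
    have h4 : (∑ q ∈ qs P Q, 1 / (q : ℝ) ^ i) ^ k =
        ∑ x ∈ Fintype.piFinset (fun _ : Fin k => qs P Q), ∏ j, 1 / ((x j : ℕ) : ℝ) ^ i := by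
      rw [← Finset.prod_univ_sum (fun _ : Fin k => qs P Q) (fun _ q => 1 / ((q : ℕ) : ℝ) ^ i),
        Finset.prod_const, Finset.card_univ, Fintype.card_fin]
    rw [h4, Finset.sum_mul_sum, reps, Finset.sum_product]
  rw [h1]
  exact h2.trans h3.le

/-- The coefficients. -/
noncomputable def cn (k : ℕ) (S : Finset ℕ) (L1 L2 : ℕ) (α : ℕ → ℂ) (n : ℕ) : ℂ := by
  classical exact ∑ a ∈ (reps k S L1 L2).filter (fun a => nu a = n), α a.1

theorem norm_cn (k : ℕ) (S : Finset ℕ) (L1 L2 : ℕ) (α : ℕ → ℂ) (F : ℝ)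
    (hα : ∀ m ∈ Finset.Ioc L1 L2, ‖α m‖ ≤ F) (n : ℕ) :
    ‖cn k S L1 L2 α n‖ ≤ F * rn k S L1 L2 n := by
  classical
  rw [cn, rn]
  refine (norm_sum_le _ _).trans ?_
  calc _ ≤ ∑ _a ∈ (reps k S L1 L2).filter (fun a => nu a = n), F :=
        Finset.sum_le_sum fun a ha => hα _ (Finset.mem_product.1 (Finset.mem_filter.1 ha).1).1
    _ = _ := by rw [Finset.sum_const, nsmul_eq_mul, mul_comm]

theorem eq_DP2 (P Q : ℝ) (k L1 L2 : ℕ) (α : ℕ → ℂ) (t : ℝ) :
    (∑ l ∈ Finset.Ioc L1 L2, α l * (l : ℂ) ^ (-(1 + t * I : ℂ))) * Qp P Q t ^ k =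
      DP (cn k (qs P Q) L1 L2 α) (L2 * ⌊Q⌋₊ ^ k) t := by
  classical
  have h1 : Qp P Q t ^ k = ∑ x ∈ Fintype.piFinset (fun _ : Fin k => qs P Q),
      ∏ i, ((x i : ℕ) : ℂ) ^ (-(1 + t * I : ℂ)) := by
    rw [← Finset.prod_univ_sum (fun _ : Fin k => qs P Q)
      (fun _ q => ((q : ℕ) : ℂ) ^ (-(1 + t * I : ℂ))), Finset.prod_const, Finset.card_univ,
      Fintype.card_fin, Qp]
  have h2 : (∑ l ∈ Finset.Ioc L1 L2, α l * (l : ℂ) ^ (-(1 + t * I : ℂ))) * Qp P Q t ^ k =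
      ∑ a ∈ reps k (qs P Q) L1 L2, α a.1 * ((nu a : ℕ) : ℂ) ^ (-(1 + t * I : ℂ)) := by
    rw [h1, Finset.sum_mul_sum, reps, Finset.sum_product]
    refine Finset.sum_congr rfl fun l _ => Finset.sum_congr rfl fun x _ => ?_
    rw [nu, Nat.cast_mul, natCast_mul_natCast_cpow, cpow_prod, mul_assoc]
  rw [h2, DP, ← Finset.sum_fiberwise_of_maps_to (g := nu) (fun a ha => nu_le ha)]
  refine Finset.sum_congr rfl fun n _ => ?_
  rw [cn, Finset.sum_mul]
  exact Finset.sum_congr rfl fun a ha => by rw [(Finset.mem_filter.1 ha).2]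

/-- CMB2X (MVTX): a high power of `Q(1+it)` times a Dirichlet polynomial. -/
theorem cmb2x_gen (h : MVTXStatement) : ∃ C : ℝ, 0 < C ∧
    ∀ (P Q b F M M' : ℝ) (k : ℕ) (α : ℕ → ℂ), 2 ≤ P → P < Q → Wq P Q ≤ 1 → 0 < b → b ≤ 1 →
    0 < M → M ≤ M' → (∀ m ∈ Finset.Ioc ⌊M⌋₊ ⌊M'⌋₊, ‖α m‖ ≤ F) →
    ∫⁻ t : ℝ, ENNReal.ofReal (‖(∑ m ∈ Finset.Ioc ⌊M⌋₊ ⌊M'⌋₊,
      α m * (m : ℂ) ^ (-(1 + t * I : ℂ))) * Qp P Q t ^ k‖ ^ 2 * Real.exp (-(b * |t|))) ≤
    ENNReal.ofReal (C * F ^ 2 * (k + 1) * ((4 * k / P) ^ k / (b * M) +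
      (2 * k) ^ k * (1 + Real.log (M' / M)))) := by
  classical
  obtain ⟨C, hC, h⟩ := h
  refine ⟨2 * C, by positivity, fun P Q b F M M' k α hP hPQ hW hb hb1 hM hMM hα => ?_⟩
  have hW' : ∑ q ∈ qs P Q, 1 / (q : ℝ) ≤ 1 := hW
  have hqs : ∀ q ∈ qs P Q, q.Prime := fun q hq => by
    rw [qs, Finset.mem_filter] at hq
    exact hq.2.1
  have h1 := h (⌊M'⌋₊ * ⌊Q⌋₊ ^ k) (cn k (qs P Q) ⌊M⌋₊ ⌊M'⌋₊ α) b hb hb1
  simp only [← eq_DP2] at h1
  refine h1.trans (ENNReal.ofReal_le_ofReal ?_)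
  have hP0 : 0 < P := by linarith
  have hlog : 0 ≤ Real.log (M' / M) := Real.log_nonneg ((one_le_div hM).2 hMM)
  set r : ℕ → ℝ := rn k (qs P Q) ⌊M⌋₊ ⌊M'⌋₊ with hr
  have h2 : ∑ n ∈ Finset.Icc 1 (⌊M'⌋₊ * ⌊Q⌋₊ ^ k), (1 / b + n) *
      ‖cn k (qs P Q) ⌊M⌋₊ ⌊M'⌋₊ α n‖ ^ 2 / (n : ℝ) ^ 2 ≤
      F ^ 2 * (1 / b * (∑ n ∈ Finset.Icc 1 (⌊M'⌋₊ * ⌊Q⌋₊ ^ k), r n ^ 2 / (n : ℝ) ^ 2) +
        ∑ n ∈ Finset.Icc 1 (⌊M'⌋₊ * ⌊Q⌋₊ ^ k), r n ^ 2 / (n : ℝ) ^ 1) := by
    rw [Finset.mul_sum, ← Finset.sum_add_distrib, Finset.mul_sum]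
    refine Finset.sum_le_sum fun n hn => ?_
    have hn1 : 1 ≤ n := (Finset.mem_Icc.1 hn).1
    have hn0 : (0 : ℝ) < n := by exact_mod_cast hn1
    have h3 : ‖cn k (qs P Q) ⌊M⌋₊ ⌊M'⌋₊ α n‖ ^ 2 ≤ (F * r n) ^ 2 :=
      pow_le_pow_left₀ (norm_nonneg _) (norm_cn k (qs P Q) _ _ α F hα n) 2
    calc (1 / b + n) * ‖cn k (qs P Q) ⌊M⌋₊ ⌊M'⌋₊ α n‖ ^ 2 / (n : ℝ) ^ 2 ≤
          (1 / b + n) * (F * r n) ^ 2 / (n : ℝ) ^ 2 :=
          div_le_div_of_nonneg_right (mul_le_mul_of_nonneg_left h3 (by positivity))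
            (by positivity)
      _ = _ := by field_simp
  have h3 := (sum_rn P Q k ⌊M⌋₊ ⌊M'⌋₊ 2).trans (mul_le_mul_of_nonneg_left
    (mul_le_mul (tau_sq k (qs P Q) hqs hW' M M' hM) (pow_le_pow_left₀
      (Finset.sum_nonneg fun _ _ => by positivity) (sum_primes P Q hP) k) (by positivity)
      (by positivity)) (by positivity : (0 : ℝ) ≤ (k.factorial : ℝ) * 2 ^ k))
  have h4 := sum_rn P Q k ⌊M⌋₊ ⌊M'⌋₊ 1
  simp only [pow_one] at h4
  have h5 := h4.trans (mul_le_mul_of_nonneg_left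
    (mul_le_mul (tau_one k (qs P Q) hqs hW' M M' hM hMM) (pow_le_one₀ (n := k)
      (Finset.sum_nonneg fun _ _ => by positivity) hW') (by positivity)
      (by positivity)) (by positivity : (0 : ℝ) ≤ (k.factorial : ℝ) * 2 ^ k))
  have h6 : (k.factorial : ℝ) * 2 ^ k ≤ (2 * k) ^ k := by
    have : (k.factorial : ℝ) ≤ (k : ℝ) ^ k := by exact_mod_cast Nat.factorial_le_pow k
    rw [mul_pow, mul_comm]
    exact mul_le_mul_of_nonneg_left this (by positivity)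
  calc C * _ ≤ C * (F ^ 2 * (1 / b * (((2 * k) ^ k) * (2 / M * (k + 1) * (2 / P) ^ k)) +
        ((2 * k) ^ k) * ((1 + Real.log (M' / M)) * (k + 1) * 1))) := by
        refine mul_le_mul_of_nonneg_left (h2.trans (mul_le_mul_of_nonneg_left (add_le_add
          (mul_le_mul_of_nonneg_left (h3.trans (mul_le_mul_of_nonneg_right h6 (by positivity)))
            (by positivity)) ?_) (by positivity))) hC.le
        simp only [pow_one]
        exact h5.trans (mul_le_mul_of_nonneg_right h6 (by positivity))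
    _ ≤ _ := by
        have h7 : ((2 * k : ℝ) ^ k) * (2 / P) ^ k = (4 * k / P) ^ k := by
          rw [← mul_pow]
          congr 1
          ring
        have h8 : 1 / b * (((2 * k : ℝ) ^ k) * (2 / M * (k + 1) * (2 / P) ^ k)) =
            2 * (k + 1) * ((4 * k / P) ^ k / (b * M)) := by
          rw [← h7]
          field_simp
        rw [h8]
        have h9 : 0 ≤ (2 * k : ℝ) ^ k * (1 + Real.log (M' / M)) := by positivity
        have h10 : 0 ≤ C * F ^ 2 * (k + 1) * ((2 * k : ℝ) ^ k * (1 + Real.log (M' / M))) := by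
          positivity
        nlinarith

/-- CMB2X. -/
theorem cmb2x (h : MVTXStatement) : G8.CMB2XStatement := by
  obtain ⟨C, hC, h1⟩ := cmb2x_gen h
  exact ⟨C, hC, fun P Q b F M₁ M₂ k α hP hPQ hW hb hb1 hM hMM _ hα =>
    h1 P Q b F M₁ M₂ k α hP hPQ hW hb hb1 hM hMM fun m _ => hα m⟩

end Pool.Agent.Lib.MP_6bc78b_nt.GP.H71
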