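import Pool.Agent.Lib.MP_6bc78b_nt.GP.H62.Defs7

set_option autoImplicit false

open Complex Filter Topology MeasureTheory ArithmeticFunction Set
open scoped ENNReal


namespace Pool.Agent.Lib.MP_6bc78b_nt.GP.H71

open Pool.Agent.Lib.MP_6bc78b_nt.GP.G7

/-- Tuples of primes with a given product. -/
theorem card_tuples (k : ℕ) (S : Finset ℕ) (hS : ∀ q ∈ S, q.Prime) (e : ℕ) :
    ((Fintype.piFinset (fun _ : Fin k => S)).filter (fun q => ∏ i, q i = e)).card ≤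
      k.factorial := by
  classical
  rcases Finset.eq_empty_or_nonempty
    ((Fintype.piFinset (fun _ : Fin k => S)).filter (fun q => ∏ i, q i = e)) with h | ⟨q0, h0⟩
  · rw [h]; simp
  · have key : ∀ q : Fin k → ℕ, q ∈ (Fintype.piFinset (fun _ : Fin k => S)).filter
        (fun q => ∏ i, q i = e) → (List.ofFn q).Perm e.primeFactorsList := fun q hq => by
      rw [Finset.mem_filter, Fintype.mem_piFinset] at hq
      refine Nat.primeFactorsList_unique ?_ fun p hp => ?_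
      · rw [List.prod_ofFn]
        exact hq.2
      · obtain ⟨i, rfl⟩ := (List.mem_ofFn' q p).1 hp
        exact hS _ (hq.1 i)
    have hlen : e.primeFactorsList.length = k := by
      have h1 := (key q0 h0).length_eq
      rw [List.length_ofFn] at h1
      exact h1.symm
    calc _ ≤ (e.primeFactorsList.permutations.toFinset).card :=
          Finset.card_le_card_of_injOn (fun q => List.ofFn q) (fun q hq => by
            have h1 := key q hq
            exact Finset.mem_coe.2 (List.mem_toFinset.2 (List.mem_permutations.2 h1)))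
            (fun a _ b _ h => List.ofFn_injective h)
      _ ≤ e.primeFactorsList.permutations.length := List.toFinset_card_le _
      _ = k.factorial := by rw [List.length_permutations, hlen]

open scoped Pointwise in
theorem card_divisors_mul_le (m n : ℕ) :
    (m * n).divisors.card ≤ m.divisors.card * n.divisors.card := by
  rw [Nat.divisors_mul]
  exact Finset.card_mul_le

theorem card_divisors_prod_le {ι : Type} (s : Finset ι) (q : ι → ℕ)
    (hq : ∀ i ∈ s, (q i).Prime) : (∏ i ∈ s, q i).divisors.card ≤ 2 ^ s.card := by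
  classical
  induction s using Finset.induction_on with
  | empty => simp
  | insert a s ha ih =>
    rw [Finset.prod_insert ha, Finset.card_insert_of_notMem ha, pow_succ, mul_comm (2 ^ _)]
    refine (card_divisors_mul_le _ _).trans (Nat.mul_le_mul ?_ (ih fun i hi =>
      hq i (Finset.mem_insert_of_mem hi)))
    have h1 := hq a (Finset.mem_insert_self a s)
    rw [h1.divisors, Finset.card_pair h1.one_lt.ne]

/-- The representations. -/
noncomputable def reps (k : ℕ) (S : Finset ℕ) (L1 L2 : ℕ) : Finset (ℕ × (Fin k → ℕ)) :=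
  Finset.Ioc L1 L2 ×ˢ Fintype.piFinset (fun _ : Fin k => S)

/-- The product. -/
def nu {k : ℕ} (a : ℕ × (Fin k → ℕ)) : ℕ := a.1 * ∏ i, a.2 i

theorem card_reps_le (k : ℕ) (S : Finset ℕ) (hS : ∀ q ∈ S, q.Prime) (L1 L2 n : ℕ) (hn : n ≠ 0) :
    ((reps k S L1 L2).filter (fun a => nu a = n)).card ≤ k.factorial * n.divisors.card := by
  classical
  refine Finset.card_le_mul_card_image_of_maps_to (f := fun a => ∏ i, a.2 i) (fun a ha => ?_) _
    fun e _ => ?_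
  · rw [Finset.mem_filter] at ha
    exact Nat.mem_divisors.2 ⟨⟨a.1, by rw [← ha.2, nu, mul_comm]⟩, hn⟩
  · refine le_trans ?_ (card_tuples k S hS e)
    refine Finset.card_le_card_of_injOn (fun a => a.2) (fun a ha => ?_) (fun a ha b hb hab => ?_)
    · have ha' := Finset.mem_filter.1 (Finset.mem_coe.1 ha)
      have h1 := Finset.mem_filter.1 ha'.1
      exact Finset.mem_coe.2 (Finset.mem_filter.2 ⟨(Finset.mem_product.1 h1.1).2, ha'.2⟩)
    · have ha' := Finset.mem_filter.1 (Finset.mem_coe.1 ha)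
      have hb' := Finset.mem_filter.1 (Finset.mem_coe.1 hb)
      have h1 := (Finset.mem_filter.1 ha'.1).2
      have h2 := (Finset.mem_filter.1 hb'.1).2
      simp only at hab
      have h3 : (∏ i, b.2 i) ≠ 0 := fun h0 => hn (by rw [← h2, nu, h0, mul_zero])
      have h4 : a.1 * ∏ i, b.2 i = b.1 * ∏ i, b.2 i := by
        have h5 : nu a = nu b := h1.trans h2.symm
        rw [nu, nu, hab] at h5
        exact h5
      exact Prod.ext (Nat.eq_of_mul_eq_mul_right (Nat.pos_of_ne_zero h3) h4) hab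

theorem card_reps_nu (k : ℕ) (S : Finset ℕ) (hS : ∀ q ∈ S, q.Prime) (L1 L2 : ℕ)
    (a : ℕ × (Fin k → ℕ)) (ha : a ∈ reps k S L1 L2) :
    ((reps k S L1 L2).filter (fun x => nu x = nu a)).card ≤
      k.factorial * (2 ^ k * a.1.divisors.card) := by
  classical
  obtain ⟨h1, h2⟩ := Finset.mem_product.1 ha
  have hq : ∀ i, (a.2 i).Prime := fun i => hS _ (Fintype.mem_piFinset.1 h2 i)
  have hn : nu a ≠ 0 := by
    refine mul_ne_zero ?_ (Finset.prod_ne_zero_iff.2 fun i _ => (hq i).ne_zero)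
    have := (Finset.mem_Ioc.1 h1).1
    omega
  refine (card_reps_le k S hS L1 L2 _ hn).trans (Nat.mul_le_mul le_rfl ?_)
  refine (card_divisors_mul_le _ _).trans ?_
  rw [mul_comm]
  refine Nat.mul_le_mul ?_ le_rfl
  have h3 := card_divisors_prod_le (Finset.univ : Finset (Fin k)) a.2 (fun i _ => hq i)
  simpa using h3


theorem sum_primes (P Q : ℝ) (hP : 2 ≤ P) :
    ∑ q ∈ qs P Q, 1 / (q : ℝ) ^ 2 ≤ 2 / P := by
  have h1 : qs P Q ⊆ Finset.Ioo ⌊P⌋₊ (⌊Q⌋₊ + 1) := fun q hq => by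
    rw [qs, Finset.mem_filter, Finset.mem_range] at hq
    exact Finset.mem_Ioo.2 ⟨(Nat.floor_lt (by linarith)).2 hq.2.2, hq.1⟩
  calc ∑ q ∈ qs P Q, 1 / (q : ℝ) ^ 2 ≤ ∑ q ∈ Finset.Ioo ⌊P⌋₊ (⌊Q⌋₊ + 1), 1 / (q : ℝ) ^ 2 :=
        Finset.sum_le_sum_of_subset_of_nonneg h1 fun _ _ _ => by positivity
    _ = ∑ q ∈ Finset.Ioo ⌊P⌋₊ (⌊Q⌋₊ + 1), ((q : ℝ) ^ 2)⁻¹ := by simp only [one_div]
    _ ≤ 2 / ((⌊P⌋₊ : ℝ) + 1) := sum_Ioo_inv_sq_le _ _
    _ ≤ 2 / P := by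
      have h2 := Nat.lt_floor_add_one P
      exact div_le_div_of_nonneg_left (by norm_num) (by linarith) h2.le

theorem sum_inv_le (n : ℕ) : ∑ e ∈ Finset.Icc 1 n, 1 / (e : ℝ) ≤ 1 + Real.log n := by
  have h1 := harmonic_le_one_add_log n
  rw [harmonic_eq_sum_Icc] at h1
  push_cast at h1
  simpa only [one_div] using h1

theorem sum_div (L1 L2 : ℕ) : ∑ l ∈ Finset.Ioc L1 L2, (l.divisors.card : ℝ) / (l : ℝ) ^ 2 ≤
    6 * ((1 + Real.log (1 + L1)) / (1 + L1)) := by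
  classical
  have h1 : ∑ l ∈ Finset.Ioc L1 L2, (l.divisors.card : ℝ) / (l : ℝ) ^ 2 =
      ∑ l ∈ Finset.Ioc L1 L2, ∑ _e ∈ l.divisors, 1 / (l : ℝ) ^ 2 := by
    refine Finset.sum_congr rfl fun l _ => ?_
    rw [Finset.sum_const, nsmul_eq_mul]
    ring
  have h2 : ∑ l ∈ Finset.Ioc L1 L2, ∑ _e ∈ l.divisors, 1 / (l : ℝ) ^ 2 =
      ∑ e ∈ Finset.Icc 1 L2, ∑ l ∈ (Finset.Ioc L1 L2).filter (fun l => e ∣ l),
        1 / (l : ℝ) ^ 2 := by
    refine Finset.sum_comm' fun l e => ?_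
    rw [Finset.mem_filter, Nat.mem_divisors, Finset.mem_Ioc, Finset.mem_Icc]
    constructor
    · rintro ⟨⟨h1, h2⟩, h3, h4⟩
      exact ⟨⟨⟨h1, h2⟩, h3⟩, Nat.pos_of_dvd_of_pos h3 (Nat.pos_of_ne_zero h4),
        (Nat.le_of_dvd (Nat.pos_of_ne_zero h4) h3).trans h2⟩
    · rintro ⟨⟨⟨h1, h2⟩, h3⟩, h4, h5⟩
      exact ⟨⟨h1, h2⟩, h3, by omega⟩
  have h3 : ∀ e ∈ Finset.Icc 1 L2, ∑ l ∈ (Finset.Ioc L1 L2).filter (fun l => e ∣ l),
      1 / (l : ℝ) ^ 2 ≤ 1 / (e : ℝ) ^ 2 * (2 / (((L1 / e : ℕ) : ℝ) + 1)) := fun e he => by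
    have he1 : 0 < e := (Finset.mem_Icc.1 he).1
    have hsub : (Finset.Ioc L1 L2).filter (fun l => e ∣ l) ⊆
        (Finset.Ioo (L1 / e) (L2 + 1)).image (fun f => e * f) := fun l hl => by
      rw [Finset.mem_filter, Finset.mem_Ioc] at hl
      obtain ⟨⟨h1, h2⟩, f, rfl⟩ := hl
      refine Finset.mem_image.2 ⟨f, Finset.mem_Ioo.2 ⟨?_, ?_⟩, rfl⟩
      · rw [Nat.div_lt_iff_lt_mul he1, mul_comm]
        exact h1
      · have : f ≤ e * f := Nat.le_mul_of_pos_left f he1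
        omega
    calc ∑ l ∈ (Finset.Ioc L1 L2).filter (fun l => e ∣ l), 1 / (l : ℝ) ^ 2 ≤
          ∑ l ∈ (Finset.Ioo (L1 / e) (L2 + 1)).image (fun f => e * f), 1 / (l : ℝ) ^ 2 :=
          Finset.sum_le_sum_of_subset_of_nonneg hsub fun _ _ _ => by positivity
      _ = ∑ f ∈ Finset.Ioo (L1 / e) (L2 + 1), 1 / ((e * f : ℕ) : ℝ) ^ 2 :=
          Finset.sum_image fun a _ b _ hab => Nat.eq_of_mul_eq_mul_left he1 hab
      _ = 1 / (e : ℝ) ^ 2 * ∑ f ∈ Finset.Ioo (L1 / e) (L2 + 1), ((f : ℝ) ^ 2)⁻¹ := by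
          rw [Finset.mul_sum]
          refine Finset.sum_congr rfl fun f _ => ?_
          rw [Nat.cast_mul, mul_pow, one_div, mul_inv, one_div]
      _ ≤ _ := mul_le_mul_of_nonneg_left (sum_Ioo_inv_sq_le _ _) (by positivity)
  have hL : (0 : ℝ) < 1 + L1 := by positivity
  have h4 : ∀ e : ℕ, 1 ≤ e → (2 : ℝ) / (((L1 / e : ℕ) : ℝ) + 1) ≤ 2 * e / (1 + L1) :=
    fun e he => by
    have h5 : L1 < e * (L1 / e + 1) := Nat.lt_mul_div_succ L1 he
    have h6 : (1 : ℝ) + L1 ≤ e * (((L1 / e : ℕ) : ℝ) + 1) := by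
      have : 1 + L1 ≤ e * (L1 / e + 1) := by omega
      exact_mod_cast this
    rw [div_le_div_iff₀ (by positivity) hL]
    nlinarith
  have h5 : ∀ e : ℕ, (2 : ℝ) / (((L1 / e : ℕ) : ℝ) + 1) ≤ 2 := fun e => by
    rw [div_le_iff₀ (by positivity)]
    nlinarith [Nat.cast_nonneg (α := ℝ) (L1 / e)]
  rw [h1, h2]
  have h6 : ∑ e ∈ Finset.Icc 1 L2, ∑ l ∈ (Finset.Ioc L1 L2).filter (fun l => e ∣ l),
      1 / (l : ℝ) ^ 2 ≤ ∑ e ∈ Finset.Icc 1 (L1 + 1), 2 / (1 + (L1 : ℝ)) * (1 / (e : ℝ)) +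
        ∑ e ∈ Finset.Ioo (L1 + 1) (L2 + 1), 2 * ((e : ℝ) ^ 2)⁻¹ := by
    calc _ ≤ ∑ e ∈ Finset.Icc 1 L2, 1 / (e : ℝ) ^ 2 * (2 / (((L1 / e : ℕ) : ℝ) + 1)) :=
          Finset.sum_le_sum h3
      _ ≤ ∑ e ∈ Finset.Icc 1 (L1 + 1) ∪ Finset.Ioo (L1 + 1) (L2 + 1),
          1 / (e : ℝ) ^ 2 * (2 / (((L1 / e : ℕ) : ℝ) + 1)) := by
          refine Finset.sum_le_sum_of_subset_of_nonneg (fun e he => ?_) fun _ _ _ => by
            positivity
          rw [Finset.mem_Icc] at he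
          rw [Finset.mem_union, Finset.mem_Icc, Finset.mem_Ioo]
          omega
      _ = ∑ e ∈ Finset.Icc 1 (L1 + 1), 1 / (e : ℝ) ^ 2 * (2 / (((L1 / e : ℕ) : ℝ) + 1)) +
          ∑ e ∈ Finset.Ioo (L1 + 1) (L2 + 1),
            1 / (e : ℝ) ^ 2 * (2 / (((L1 / e : ℕ) : ℝ) + 1)) := by
          refine Finset.sum_union (Finset.disjoint_left.2 fun e h1 h2 => ?_)
          rw [Finset.mem_Icc] at h1
          rw [Finset.mem_Ioo] at h2
          omega
      _ ≤ _ := by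
          refine add_le_add (Finset.sum_le_sum fun e he => ?_) (Finset.sum_le_sum fun e he => ?_)
          · have he1 : 1 ≤ e := (Finset.mem_Icc.1 he).1
            have he0 : (0 : ℝ) < e := by exact_mod_cast he1
            calc 1 / (e : ℝ) ^ 2 * (2 / (((L1 / e : ℕ) : ℝ) + 1)) ≤
                  1 / (e : ℝ) ^ 2 * (2 * e / (1 + L1)) :=
                  mul_le_mul_of_nonneg_left (h4 e he1) (by positivity)
              _ = 2 / (1 + (L1 : ℝ)) * (1 / (e : ℝ)) := by field_simp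
          · calc 1 / (e : ℝ) ^ 2 * (2 / (((L1 / e : ℕ) : ℝ) + 1)) ≤ 1 / (e : ℝ) ^ 2 * 2 :=
                  mul_le_mul_of_nonneg_left (h5 e) (by positivity)
              _ = 2 * ((e : ℝ) ^ 2)⁻¹ := by rw [one_div, mul_comm]
  have h7 : ∑ e ∈ Finset.Icc 1 (L1 + 1), 2 / (1 + (L1 : ℝ)) * (1 / (e : ℝ)) ≤
      2 / (1 + (L1 : ℝ)) * (1 + Real.log (1 + L1)) := by
    rw [← Finset.mul_sum]
    refine mul_le_mul_of_nonneg_left ?_ (by positivity)
    have := sum_inv_le (L1 + 1)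
    rw [Nat.cast_add, Nat.cast_one, add_comm (L1 : ℝ) 1] at this
    exact this
  have h8 : ∑ e ∈ Finset.Ioo (L1 + 1) (L2 + 1), 2 * ((e : ℝ) ^ 2)⁻¹ ≤
      2 * (2 / (1 + (L1 : ℝ))) := by
    rw [← Finset.mul_sum]
    refine mul_le_mul_of_nonneg_left ((sum_Ioo_inv_sq_le _ _).trans ?_) (by norm_num)
    refine div_le_div_of_nonneg_left (by norm_num) hL ?_
    push_cast
    linarith
  have h9 : 0 ≤ Real.log (1 + L1) := Real.log_nonneg (by
    have : (0 : ℝ) ≤ L1 := Nat.cast_nonneg _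
    linarith)
  calc _ ≤ 2 / (1 + (L1 : ℝ)) * (1 + Real.log (1 + L1)) + 2 * (2 / (1 + (L1 : ℝ))) :=
        h6.trans (add_le_add h7 h8)
    _ = (2 * (1 + Real.log (1 + L1)) + 4) / (1 + L1) := by ring
    _ ≤ (6 * (1 + Real.log (1 + L1))) / (1 + L1) := by
        refine div_le_div_of_nonneg_right ?_ hL.le
        linarith
    _ = _ := by ring

theorem cpow_prod {ι : Type} (s : Finset ι) (q : ι → ℕ) (z : ℂ) :
    ((∏ i ∈ s, q i : ℕ) : ℂ) ^ z = ∏ i ∈ s, (q i : ℂ) ^ z := by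
  classical
  induction s using Finset.induction_on with
  | empty => simp
  | insert a s ha ih =>
    rw [Finset.prod_insert ha, Finset.prod_insert ha, Nat.cast_mul, natCast_mul_natCast_cpow, ih]

theorem nu_le {k : ℕ} {P Q : ℝ} {L1 L2 : ℕ} {a : ℕ × (Fin k → ℕ)}
    (ha : a ∈ reps k (qs P Q) L1 L2) : nu a ∈ Finset.Icc 1 (L2 * ⌊Q⌋₊ ^ k) := by
  obtain ⟨h1, h2⟩ := Finset.mem_product.1 ha
  have h3 : ∀ i, 0 < a.2 i ∧ a.2 i ≤ ⌊Q⌋₊ := fun i => by
    have h4 := Fintype.mem_piFinset.1 h2 i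
    rw [qs, Finset.mem_filter, Finset.mem_range] at h4
    exact ⟨h4.2.1.pos, by omega⟩
  rw [Finset.mem_Ioc] at h1
  refine Finset.mem_Icc.2 ⟨Nat.mul_pos (by omega) (Finset.prod_pos fun i _ => (h3 i).1), ?_⟩
  refine Nat.mul_le_mul h1.2 ?_
  calc ∏ i, a.2 i ≤ ∏ _i : Fin k, ⌊Q⌋₊ := Finset.prod_le_prod' fun i _ => (h3 i).2
    _ = ⌊Q⌋₊ ^ k := by simp

theorem eq_DP (P Q : ℝ) (k L1 L2 : ℕ) (t : ℝ) :
    (∑ l ∈ Finset.Ioc L1 L2, (l : ℂ) ^ (-(1 + t * I : ℂ))) * Qp P Q t ^ k =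
      DP (fun n => ((((reps k (qs P Q) L1 L2).filter (fun a => nu a = n)).card : ℝ) : ℂ))
        (L2 * ⌊Q⌋₊ ^ k) t := by
  classical
  have h1 : Qp P Q t ^ k = ∑ x ∈ Fintype.piFinset (fun _ : Fin k => qs P Q),
      ∏ i, ((x i : ℕ) : ℂ) ^ (-(1 + t * I : ℂ)) := by
    rw [← Finset.prod_univ_sum (fun _ : Fin k => qs P Q)
      (fun _ q => ((q : ℕ) : ℂ) ^ (-(1 + t * I : ℂ))), Finset.prod_const, Finset.card_univ,
      Fintype.card_fin, Qp]
  have h2 : (∑ l ∈ Finset.Ioc L1 L2, (l : ℂ) ^ (-(1 + t * I : ℂ))) * Qp P Q t ^ k =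
      ∑ a ∈ reps k (qs P Q) L1 L2, ((nu a : ℕ) : ℂ) ^ (-(1 + t * I : ℂ)) := by
    rw [h1, Finset.sum_mul_sum, reps, Finset.sum_product]
    refine Finset.sum_congr rfl fun l _ => Finset.sum_congr rfl fun x _ => ?_
    rw [nu, Nat.cast_mul, natCast_mul_natCast_cpow, cpow_prod]
  rw [h2, DP, ← Finset.sum_fiberwise_of_maps_to (g := nu) (fun a ha => nu_le ha)]
  refine Finset.sum_congr rfl fun n _ => ?_
  rw [Finset.sum_congr rfl (g := fun _ => (n : ℂ) ^ (-(1 + t * I : ℂ))) (fun a ha => by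
    rw [(Finset.mem_filter.1 ha).2]), Finset.sum_const, nsmul_eq_mul]
  push_cast
  rfl

theorem coeff_sum (P Q : ℝ) (hP : 2 ≤ P) (k L1 L2 : ℕ) :
    ∑ n ∈ Finset.Icc 1 (L2 * ⌊Q⌋₊ ^ k),
      (((reps k (qs P Q) L1 L2).filter (fun a => nu a = n)).card : ℝ) ^ 2 / (n : ℝ) ^ 2 ≤
      (4 * k / P) ^ k * (6 * ((1 + Real.log (1 + L1)) / (1 + L1))) := by
  classical
  have hqs : ∀ q ∈ qs P Q, q.Prime := fun q hq => by
    rw [qs, Finset.mem_filter] at hq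
    exact hq.2.1
  have h1 : ∑ n ∈ Finset.Icc 1 (L2 * ⌊Q⌋₊ ^ k),
      (((reps k (qs P Q) L1 L2).filter (fun a => nu a = n)).card : ℝ) ^ 2 / (n : ℝ) ^ 2 =
      ∑ a ∈ reps k (qs P Q) L1 L2,
        (((reps k (qs P Q) L1 L2).filter (fun x => nu x = nu a)).card : ℝ) / (nu a : ℝ) ^ 2 := by
    rw [← Finset.sum_fiberwise_of_maps_to (g := nu) (fun a ha => nu_le ha)]
    refine Finset.sum_congr rfl fun n _ => ?_
    rw [Finset.sum_congr rfl (g := fun _ =>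
      (((reps k (qs P Q) L1 L2).filter (fun x => nu x = n)).card : ℝ) / (n : ℝ) ^ 2)
      (fun a ha => by rw [(Finset.mem_filter.1 ha).2]), Finset.sum_const, nsmul_eq_mul]
    ring
  have h2 : ∑ a ∈ reps k (qs P Q) L1 L2,
      (((reps k (qs P Q) L1 L2).filter (fun x => nu x = nu a)).card : ℝ) / (nu a : ℝ) ^ 2 ≤
      ∑ a ∈ reps k (qs P Q) L1 L2, ((k.factorial : ℝ) * 2 ^ k) *
        (((a.1.divisors.card : ℝ) / (a.1 : ℝ) ^ 2) * ∏ i, 1 / ((a.2 i : ℕ) : ℝ) ^ 2) := by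
    refine Finset.sum_le_sum fun a ha => ?_
    have h3 := card_reps_nu k (qs P Q) hqs L1 L2 a ha
    have h4 : (((reps k (qs P Q) L1 L2).filter (fun x => nu x = nu a)).card : ℝ) ≤
        (k.factorial : ℝ) * (2 ^ k * a.1.divisors.card) := by exact_mod_cast h3
    have h5 : ∏ i, 1 / ((a.2 i : ℕ) : ℝ) ^ 2 = 1 / ((∏ i, a.2 i : ℕ) : ℝ) ^ 2 := by
      rw [Finset.prod_div_distrib, Finset.prod_const_one, Finset.prod_pow, Nat.cast_prod]
    have h6 : (nu a : ℝ) ^ 2 = (a.1 : ℝ) ^ 2 * ((∏ i, a.2 i : ℕ) : ℝ) ^ 2 := by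
      rw [nu, Nat.cast_mul, mul_pow]
    rw [h5, h6]
    calc _ ≤ (k.factorial : ℝ) * (2 ^ k * a.1.divisors.card) /
          ((a.1 : ℝ) ^ 2 * ((∏ i, a.2 i : ℕ) : ℝ) ^ 2) :=
          div_le_div_of_nonneg_right h4 (by positivity)
      _ = _ := by
          rw [div_eq_mul_inv, mul_inv]
          ring
  have h3 : ∑ a ∈ reps k (qs P Q) L1 L2, ((k.factorial : ℝ) * 2 ^ k) *
        (((a.1.divisors.card : ℝ) / (a.1 : ℝ) ^ 2) * ∏ i, 1 / ((a.2 i : ℕ) : ℝ) ^ 2) =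
      ((k.factorial : ℝ) * 2 ^ k) *
        ((∑ l ∈ Finset.Ioc L1 L2, (l.divisors.card : ℝ) / (l : ℝ) ^ 2) *
          (∑ q ∈ qs P Q, 1 / (q : ℝ) ^ 2) ^ k) := by
    rw [← Finset.mul_sum]
    congr 1
    have h4 : (∑ q ∈ qs P Q, 1 / (q : ℝ) ^ 2) ^ k =
        ∑ x ∈ Fintype.piFinset (fun _ : Fin k => qs P Q), ∏ i, 1 / ((x i : ℕ) : ℝ) ^ 2 := by
      rw [← Finset.prod_univ_sum (fun _ : Fin k => qs P Q) (fun _ q => 1 / ((q : ℕ) : ℝ) ^ 2),
        Finset.prod_const, Finset.card_univ, Fintype.card_fin]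
    rw [h4, Finset.sum_mul_sum, reps, Finset.sum_product]
  rw [h1]
  refine h2.trans ?_
  rw [h3]
  have hP0 : 0 < P := by linarith
  have h4 : (∑ q ∈ qs P Q, 1 / (q : ℝ) ^ 2) ^ k ≤ (2 / P) ^ k :=
    pow_le_pow_left₀ (Finset.sum_nonneg fun _ _ => by positivity) (sum_primes P Q hP) k
  have h5 : (k.factorial : ℝ) ≤ (k : ℝ) ^ k := by exact_mod_cast Nat.factorial_le_pow k
  have h6 : 0 ≤ ∑ l ∈ Finset.Ioc L1 L2, (l.divisors.card : ℝ) / (l : ℝ) ^ 2 :=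
    Finset.sum_nonneg fun _ _ => by positivity
  calc ((k.factorial : ℝ) * 2 ^ k) *
        ((∑ l ∈ Finset.Ioc L1 L2, (l.divisors.card : ℝ) / (l : ℝ) ^ 2) *
          (∑ q ∈ qs P Q, 1 / (q : ℝ) ^ 2) ^ k) ≤
        ((k : ℝ) ^ k * 2 ^ k) * ((6 * ((1 + Real.log (1 + L1)) / (1 + L1))) * (2 / P) ^ k) := by
        refine mul_le_mul (mul_le_mul_of_nonneg_right h5 (by positivity))
          (mul_le_mul (sum_div L1 L2) h4 (by positivity) (h6.trans (sum_div L1 L2)))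
          (mul_nonneg h6 (by positivity)) (by positivity)
    _ = ((k : ℝ) * 2 * (2 / P)) ^ k * (6 * ((1 + Real.log (1 + L1)) / (1 + L1))) := by
        rw [mul_pow, mul_pow]
        ring
    _ = _ := by
        congr 2
        ring

/-- CMBX. -/
theorem cmbx (h : MVTXStatement) : CMBXStatement := by
  obtain ⟨C, hC, h⟩ := h
  refine ⟨12 * C, by positivity, fun P Q b k L1 L2 hP hPQ hb hb1 hL => ?_⟩
  have h1 := h (L2 * ⌊Q⌋₊ ^ k)
    (fun n => ((((reps k (qs P Q) L1 L2).filter (fun a => nu a = n)).card : ℝ) : ℂ)) b hb hb1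
  simp only [← eq_DP] at h1
  refine h1.trans (ENNReal.ofReal_le_ofReal ?_)
  have hQ : (⌊Q⌋₊ : ℝ) ≤ Q := Nat.floor_le (by linarith)
  have h2 : ∑ n ∈ Finset.Icc 1 (L2 * ⌊Q⌋₊ ^ k), (1 / b + n) *
      ‖((((reps k (qs P Q) L1 L2).filter (fun a => nu a = n)).card : ℝ) : ℂ)‖ ^ 2 /
        (n : ℝ) ^ 2 ≤ (2 / b) * ∑ n ∈ Finset.Icc 1 (L2 * ⌊Q⌋₊ ^ k),
      (((reps k (qs P Q) L1 L2).filter (fun a => nu a = n)).card : ℝ) ^ 2 / (n : ℝ) ^ 2 := by
    rw [Finset.mul_sum]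
    refine Finset.sum_le_sum fun n hn => ?_
    rw [Complex.norm_real, Real.norm_eq_abs, sq_abs, ← mul_div_assoc]
    refine div_le_div_of_nonneg_right (mul_le_mul_of_nonneg_right ?_ (by positivity))
      (by positivity)
    have h3 : (n : ℝ) ≤ 1 / b := by
      refine le_trans ?_ hL
      have h4 : (n : ℝ) ≤ (L2 * ⌊Q⌋₊ ^ k : ℕ) := by exact_mod_cast (Finset.mem_Icc.1 hn).2
      refine h4.trans ?_
      push_cast
      exact mul_le_mul_of_nonneg_left (pow_le_pow_left₀ (by positivity) hQ k) (by positivity)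
    have h5 : 2 / b = 1 / b + 1 / b := by ring
    linarith
  have h3 := coeff_sum P Q hP k L1 L2
  calc C * _ ≤ C * ((2 / b) * ((4 * k / P) ^ k * (6 * ((1 + Real.log (1 + L1)) / (1 + L1))))) :=
        mul_le_mul_of_nonneg_left (h2.trans (mul_le_mul_of_nonneg_left h3 (by positivity))) hC.le
    _ = _ := by ring

end Pool.Agent.Lib.MP_6bc78b_nt.GP.H71
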