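import Pool.Agent.Lib.MP_6bc78b_nt.GP.H71.Typ
import Pool.Agent.Lib.MP_6bc78b_nt.GP.H11.Defs11

/-! # Row TYP of GP11 -/

set_option autoImplicit false

open Complex MeasureTheory Set Filter Topology

namespace Pool.Agent.Lib.MP_6bc78b_nt.GP.G11

/-- Row TYP. -/
theorem typ71 : TYPStatement := by
  obtain ⟨C, hC, h⟩ := H71.Typ.typ_gen
  refine ⟨C * Real.exp 1, by positivity, fun y lam K hy hlam hK => ?_⟩
  obtain ⟨T0, hT0, h0⟩ := h ((Finset.Icc 1 y).filter Nat.Prime) y lam K hy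
    (fun p hp => ⟨(Finset.mem_filter.1 hp).2, (Finset.mem_Icc.1 (Finset.mem_filter.1 hp).1).2⟩)
    hlam hK
  refine ⟨T0, hT0, fun T hT => (h0 T hT).trans (ENNReal.ofReal_le_ofReal ?_)⟩
  have hm := H71.Typ.merten y hy
  set V : ℝ := ∑ p ∈ (Finset.Icc 1 y).filter Nat.Prime, 1 / (p : ℝ)
  have h1 : Real.log y * Real.exp (-V) ≤ Real.exp 1 := by
    calc Real.log y * Real.exp (-V) ≤ Real.exp 1 * Real.exp V * Real.exp (-V) :=
          mul_le_mul_of_nonneg_right hm (Real.exp_pos _).le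
      _ = Real.exp 1 := by rw [mul_assoc, ← Real.exp_add]; simp
  have hT1 : 0 ≤ T := by linarith
  calc C * lam * Real.log y * Real.exp (-V) * Real.exp (-(2 * K)) * T =
      (C * lam * Real.exp (-(2 * K)) * T) * (Real.log y * Real.exp (-V)) := by ring
    _ ≤ (C * lam * Real.exp (-(2 * K)) * T) * Real.exp 1 :=
        mul_le_mul_of_nonneg_left h1 (by positivity)
    _ = _ := by ring

end Pool.Agent.Lib.MP_6bc78b_nt.GP.G11
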