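import Pool.Agent.Lib.MP_6bc78b_nt.GP.H69.Mvtx
import Pool.Agent.Lib.MP_6bc78b_nt.GP.H99.Gx

/-! # Row TYP of GP11: large values of `exp (∑ p^(-1/2-iu))` for a fixed finite set of primes are
rare, with the supremum over a window

`exp (∑_{p ∈ P} p^(-s)) = ∑ c(n) n^(-s)`, `c(n) = ∏ 1 / (v_p(n))!`; a partial sum of this series is
within `1/2` of the sum on the whole line, and the mean value theorem for this partial sum and for
its derivative, with the one-dimensional Sobolev inequality, gives the bound. -/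

set_option autoImplicit false

open Complex MeasureTheory Set Filter Topology

namespace Pool.Agent.Lib.MP_6bc78b_nt.GP.H71.Typ

open Pool.Agent.Lib.MP_6bc78b_nt.GP.G7

/-! ## The coefficients -/

/-- `∏ 1 / (v_p(n))!`. -/
noncomputable def gc (n : ℕ) : ℝ := n.factorization.prod fun _ k => 1 / (k.factorial : ℝ)

lemma gc_one : gc 1 = 1 := by simp [gc]

lemma gc_mul {m n : ℕ} (h : Nat.Coprime m n) : gc (m * n) = gc m * gc n := by
  unfold gc
  rw [Nat.factorization_mul_of_coprime h, Finsupp.prod_add_index_of_disjoint]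
  simpa using h.disjoint_primeFactors

lemma gc_pow {p : ℕ} (hp : p.Prime) (k : ℕ) : gc (p ^ k) = 1 / (k.factorial : ℝ) := by
  unfold gc
  rw [hp.factorization_pow, Finsupp.prod_single_index (by simp)]

lemma gc_nonneg (n : ℕ) : 0 ≤ gc n := by
  unfold gc Finsupp.prod
  exact Finset.prod_nonneg fun _ _ => by positivity

lemma gc_le_one (n : ℕ) : gc n ≤ 1 := by
  unfold gc Finsupp.prod
  refine Finset.prod_le_one (fun _ _ => by positivity) fun p _ => ?_
  rw [div_le_one (by positivity)]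
  exact_mod_cast Nat.factorial_pos _

/-- the terms of the Dirichlet series -/
noncomputable def ff (s : ℂ) (n : ℕ) : ℂ := (gc n : ℂ) * (n : ℂ) ^ (-s)

lemma ff_one (s : ℂ) : ff s 1 = 1 := by simp [ff, gc_one]

lemma ff_mul (s : ℂ) {m n : ℕ} (h : Nat.Coprime m n) : ff s (m * n) = ff s m * ff s n := by
  unfold ff
  rw [gc_mul h, Nat.cast_mul, Complex.natCast_mul_natCast_cpow]
  push_cast
  ring

lemma ff_pow (s : ℂ) {p : ℕ} (hp : p.Prime) (k : ℕ) :
    ff s (p ^ k) = ((p : ℂ) ^ (-s)) ^ k / (k.factorial : ℂ) := by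
  unfold ff
  rw [gc_pow hp, Nat.cast_pow, ← Complex.natCast_cpow_natCast_mul, Complex.cpow_nat_mul]
  push_cast
  ring

lemma ff_sum (s : ℂ) {p : ℕ} (hp : p.Prime) :
    Summable (fun k : ℕ => ‖ff s (p ^ k)‖) ∧ ∑' k : ℕ, ff s (p ^ k) = Complex.exp ((p : ℂ) ^ (-s)) := by
  have h := NormedSpace.expSeries_div_hasSum_exp ((p : ℂ) ^ (-s))
  have h2 := NormedSpace.norm_expSeries_div_summable ((p : ℂ) ^ (-s))
  simp only [ff_pow s hp]
  rw [Complex.exp_eq_exp_ℂ]
  exact ⟨h2, h.tsum_eq⟩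

/-- the numbers composed of the primes of `P` -/
noncomputable def aa (P : Finset ℕ) (n : ℕ) : ℝ := (Nat.factoredNumbers P : Set ℕ).indicator gc n

lemma aa_nonneg (P : Finset ℕ) (n : ℕ) : 0 ≤ aa P n := Set.indicator_nonneg (fun n _ => gc_nonneg n) n

lemma aa_le_one (P : Finset ℕ) (n : ℕ) : aa P n ≤ 1 := by
  unfold aa
  refine Set.indicator_le' (fun n _ => gc_le_one n) (fun n _ => zero_le_one) n

lemma aa_zero (P : Finset ℕ) : aa P 0 = 0 := by
  unfold aa
  rw [Set.indicator_of_notMem]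
  intro h
  exact Nat.ne_zero_of_mem_factoredNumbers h rfl

/-- **The Euler product.** -/
lemma euler (P : Finset ℕ) (hP : ∀ p ∈ P, p.Prime) (s : ℂ) :
    Summable (fun n : ℕ => ‖(aa P n : ℂ) * (n : ℂ) ^ (-s)‖) ∧
      HasSum (fun n : ℕ => (aa P n : ℂ) * (n : ℂ) ^ (-s)) (Complex.exp (∑ p ∈ P, (p : ℂ) ^ (-s))) := by
  have h := EulerProduct.summable_and_hasSum_factoredNumbers_prod_filter_prime_tsum (f := ff s)
    (ff_one s) (ff_mul s) (fun hp => (ff_sum s hp).1) P
  have e : (fun n : ℕ => (aa P n : ℂ) * (n : ℂ) ^ (-s)) =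
      (Nat.factoredNumbers P : Set ℕ).indicator (ff s) := by
    funext n
    by_cases hn : n ∈ (Nat.factoredNumbers P : Set ℕ)
    · rw [Set.indicator_of_mem hn]
      unfold aa ff
      rw [Set.indicator_of_mem hn]
    · rw [Set.indicator_of_notMem hn]
      unfold aa
      rw [Set.indicator_of_notMem hn]
      simp
  have e2 : (∏ p ∈ P with p.Prime, ∑' k : ℕ, ff s (p ^ k)) =
      Complex.exp (∑ p ∈ P, (p : ℂ) ^ (-s)) := by
    rw [Finset.filter_true_of_mem hP, Complex.exp_sum]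
    exact Finset.prod_congr rfl fun p hp => (ff_sum s (hP p hp)).2
  rw [e2] at h
  constructor
  · have h3 : (fun n : ℕ => ‖(aa P n : ℂ) * (n : ℂ) ^ (-s)‖) =
        (Nat.factoredNumbers P : Set ℕ).indicator (fun n => ‖ff s n‖) := by
      funext n
      rw [congrFun e n, norm_indicator_eq_indicator_norm]
    rw [h3]
    exact (summable_subtype_iff_indicator (s := (Nat.factoredNumbers P : Set ℕ))).1 h.1
  · rw [e]
    exact (hasSum_subtype_iff_indicator (s := (Nat.factoredNumbers P : Set ℕ))).1 h.2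

/-- the real form -/
lemma euler_real (P : Finset ℕ) (hP : ∀ p ∈ P, p.Prime) (x : ℝ) :
    HasSum (fun n : ℕ => aa P n * (n : ℝ) ^ (-x)) (Real.exp (∑ p ∈ P, (p : ℝ) ^ (-x))) := by
  have h := (euler P hP (x : ℂ)).2
  have e : ∀ n : ℕ, (aa P n : ℂ) * (n : ℂ) ^ (-(x : ℂ)) = ((aa P n * (n : ℝ) ^ (-x) : ℝ) : ℂ) := by
    intro n
    rw [Complex.ofReal_mul, Complex.ofReal_cpow (Nat.cast_nonneg n)]
    push_cast
    rfl
  have e2 : Complex.exp (∑ p ∈ P, (p : ℂ) ^ (-(x : ℂ))) =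
      ((Real.exp (∑ p ∈ P, (p : ℝ) ^ (-x)) : ℝ) : ℂ) := by
    rw [Complex.ofReal_exp, Complex.ofReal_sum]
    congr 1
    refine Finset.sum_congr rfl fun p _ => ?_
    rw [Complex.ofReal_cpow (Nat.cast_nonneg p)]
    push_cast
    rfl
  simp only [e] at h
  rw [e2] at h
  exact Complex.hasSum_ofReal.1 h

/-! ## The sums -/

/-- `∑_{p ∈ P} p^(-1 + 1/log y) ≤ V + C`. -/
lemma shift_le : ∃ C : ℝ, 0 ≤ C ∧ ∀ (P : Finset ℕ) (y : ℕ), 2 ≤ y →
    (∀ p ∈ P, p.Prime ∧ p ≤ y) →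
    ∑ p ∈ P, (p : ℝ) ^ (-(1 - 1 / Real.log y)) ≤ ∑ p ∈ P, 1 / (p : ℝ) + C := by
  refine ⟨2 + 2 * (Real.log 4 + 4) / Real.log 2, by positivity, fun P y hy hP => ?_⟩
  have hy2 : (2 : ℝ) ≤ y := by exact_mod_cast hy
  have hl2 : 0 < Real.log 2 := Real.log_pos (by norm_num)
  have hly : Real.log 2 ≤ Real.log y := Real.log_le_log (by norm_num) hy2
  have hly0 : 0 < Real.log y := lt_of_lt_of_le hl2 hly
  have h4 : 0 ≤ Real.log 4 := Real.log_nonneg (by norm_num)
  have h1 : ∀ p ∈ P, (p : ℝ) ^ (-(1 - 1 / Real.log y)) ≤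
      1 / (p : ℝ) + 2 / Real.log y * (ArithmeticFunction.vonMangoldt p / p) := by
    intro p hp
    obtain ⟨hpp, hpy⟩ := hP p hp
    have hp0 : (0 : ℝ) < p := by exact_mod_cast hpp.pos
    have hp1 : (1 : ℝ) ≤ p := by exact_mod_cast hpp.one_le
    have hpy' : (p : ℝ) ≤ y := by exact_mod_cast hpy
    have hlp : 0 ≤ Real.log p := Real.log_nonneg hp1
    have hlpy : Real.log p ≤ Real.log y := Real.log_le_log hp0 hpy'
    rw [ArithmeticFunction.vonMangoldt_apply_prime hpp]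
    have hx0 : 0 ≤ Real.log p / Real.log y := by positivity
    have hx1 : Real.log p / Real.log y ≤ 1 := (div_le_one hly0).2 hlpy
    have h2 := Real.abs_exp_sub_one_sub_id_le (x := Real.log p / Real.log y)
      (by rw [abs_of_nonneg hx0]; exact hx1)
    have h3 : Real.exp (Real.log p / Real.log y) ≤ 1 + 2 * (Real.log p / Real.log y) := by
      have h5 := (abs_le.1 h2).2
      nlinarith
    have h6 : (p : ℝ) ^ (-(1 - 1 / Real.log y)) = 1 / p * Real.exp (Real.log p / Real.log y) := by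
      rw [show -(1 - 1 / Real.log y) = -1 + 1 / Real.log y by ring, Real.rpow_add hp0,
        Real.rpow_neg_one, Real.rpow_def_of_pos hp0, one_div (p : ℝ)]
      congr 2
      ring
    rw [h6]
    calc 1 / (p : ℝ) * Real.exp (Real.log p / Real.log y) ≤
        1 / (p : ℝ) * (1 + 2 * (Real.log p / Real.log y)) :=
          mul_le_mul_of_nonneg_left h3 (by positivity)
      _ = 1 / (p : ℝ) + 2 / Real.log y * (Real.log p / p) := by
          field_simp
  refine (Finset.sum_le_sum h1).trans ?_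
  rw [Finset.sum_add_distrib, ← Finset.mul_sum]
  have h7 : ∑ p ∈ P, ArithmeticFunction.vonMangoldt p / (p : ℝ) ≤ Real.log y + (Real.log 4 + 4) := by
    refine le_trans ?_ (GX99.mertens y (by omega))
    refine Finset.sum_le_sum_of_subset_of_nonneg (fun p hp => ?_) fun i _ _ => by
      have := ArithmeticFunction.vonMangoldt_nonneg (n := i)
      positivity
    rw [Finset.mem_Icc]
    exact ⟨(hP p hp).1.one_le, (hP p hp).2⟩
  have h8 : 2 / Real.log y * ∑ p ∈ P, ArithmeticFunction.vonMangoldt p / (p : ℝ) ≤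
      2 + 2 * (Real.log 4 + 4) / Real.log 2 := by
    calc 2 / Real.log y * ∑ p ∈ P, ArithmeticFunction.vonMangoldt p / (p : ℝ) ≤
        2 / Real.log y * (Real.log y + (Real.log 4 + 4)) :=
          mul_le_mul_of_nonneg_left h7 (by positivity)
      _ = 2 + 2 * (Real.log 4 + 4) / Real.log y := by
          field_simp
      _ ≤ 2 + 2 * (Real.log 4 + 4) / Real.log 2 := by
          have := div_le_div_of_nonneg_left (a := 2 * (Real.log 4 + 4)) (by positivity) hl2 hly
          linarith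
  linarith

lemma sum1 (P : Finset ℕ) (hP : ∀ p ∈ P, p.Prime) (N : ℕ) :
    ∑ n ∈ Finset.Icc 1 N, aa P n ^ 2 / n ≤ Real.exp (∑ p ∈ P, 1 / (p : ℝ)) := by
  have h := euler_real P hP 1
  have e : ∀ n : ℕ, (n : ℝ) ^ (-1 : ℝ) = 1 / n := fun n => by rw [Real.rpow_neg_one, one_div]
  simp only [e] at h
  refine le_trans (Finset.sum_le_sum fun n _ => ?_)
    (sum_le_hasSum (Finset.Icc 1 N) (fun n _ => by have := aa_nonneg P n; positivity) h)
  rw [div_eq_mul_one_div]
  have h1 := aa_nonneg P n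
  have h2 := aa_le_one P n
  exact mul_le_mul_of_nonneg_right (by nlinarith) (by positivity)

lemma sum2 (P : Finset ℕ) (hP : ∀ p ∈ P, p.Prime) (N y : ℕ) (hy : 2 ≤ y) :
    ∑ n ∈ Finset.Icc 1 N, aa P n ^ 2 * Real.log n ^ 2 / n ≤
      2 * Real.log y ^ 2 * Real.exp (∑ p ∈ P, (p : ℝ) ^ (-(1 - 1 / Real.log y))) := by
  have hy2 : (2 : ℝ) ≤ y := by exact_mod_cast hy
  have hly0 : 0 < Real.log y := Real.log_pos (by linarith)
  have h := (euler_real P hP (1 - 1 / Real.log y)).mul_left (2 * Real.log y ^ 2)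
  refine le_trans (Finset.sum_le_sum fun n hn => ?_)
    (sum_le_hasSum (Finset.Icc 1 N) (fun n _ => by have := aa_nonneg P n; positivity) h)
  rw [Finset.mem_Icc] at hn
  have hn0 : (0 : ℝ) < n := by exact_mod_cast hn.1
  have hn1 : (1 : ℝ) ≤ n := by exact_mod_cast hn.1
  have hln : 0 ≤ Real.log n := Real.log_nonneg hn1
  have h1 := aa_nonneg P n
  have h2 := aa_le_one P n
  have h3 := Real.quadratic_le_exp_of_nonneg (x := Real.log n / Real.log y) (by positivity)
  have h4 : Real.log n ^ 2 ≤ 2 * Real.log y ^ 2 * Real.exp (Real.log n / Real.log y) := by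
    have h5 : Real.log n ^ 2 = 2 * Real.log y ^ 2 * ((Real.log n / Real.log y) ^ 2 / 2) := by
      field_simp
    rw [h5]
    have h6 : 0 ≤ Real.log n / Real.log y := by positivity
    exact mul_le_mul_of_nonneg_left (by linarith) (by positivity)
  have h6 : (n : ℝ) ^ (-(1 - 1 / Real.log y)) = 1 / n * Real.exp (Real.log n / Real.log y) := by
    rw [show -(1 - 1 / Real.log y) = -1 + 1 / Real.log y by ring, Real.rpow_add hn0,
      Real.rpow_neg_one, Real.rpow_def_of_pos hn0, one_div (n : ℝ)]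
    congr 2
    ring
  rw [h6]
  calc aa P n ^ 2 * Real.log n ^ 2 / n ≤
      aa P n * (2 * Real.log y ^ 2 * Real.exp (Real.log n / Real.log y)) / n := by
        refine div_le_div_of_nonneg_right ?_ hn0.le
        exact mul_le_mul (by nlinarith) h4 (by positivity) h1
    _ = 2 * Real.log y ^ 2 * (aa P n * (1 / n * Real.exp (Real.log n / Real.log y))) := by ring

/-! ## The Dirichlet polynomial -/

/-- the coefficients in the normalization of `DP` -/
noncomputable def cc (P : Finset ℕ) (n : ℕ) : ℂ := (aa P n : ℂ) * (n : ℂ) ^ (1 / 2 : ℂ)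

/-- the coefficients of the derivative -/
noncomputable def cd (c : ℕ → ℂ) (n : ℕ) : ℂ := -(I * Real.log n) * c n

lemma norm_cc (P : Finset ℕ) {n : ℕ} (hn : 1 ≤ n) : ‖cc P n‖ ^ 2 = aa P n ^ 2 * n := by
  have hn0 : (0 : ℝ) < n := by exact_mod_cast hn
  unfold cc
  rw [norm_mul, Complex.norm_real, Real.norm_of_nonneg (aa_nonneg P n), mul_pow,
    Complex.norm_natCast_cpow_of_pos (by omega), show ((1 / 2 : ℂ)).re = 1 / 2 by norm_num,
    ← Real.sqrt_eq_rpow, Real.sq_sqrt hn0.le]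

lemma DP_cc (P : Finset ℕ) (N : ℕ) (u : ℝ) : DP (cc P) N u =
    ∑ n ∈ Finset.Icc 1 N, (aa P n : ℂ) * (n : ℂ) ^ (-(1 / 2 + u * I : ℂ)) := by
  unfold DP
  refine Finset.sum_congr rfl fun n hn => ?_
  rw [Finset.mem_Icc] at hn
  have hn0 : (n : ℂ) ≠ 0 := by
    have : n ≠ 0 := by omega
    exact_mod_cast this
  unfold cc
  rw [mul_assoc, ← Complex.cpow_add _ _ hn0]
  congr 2
  ring

lemma DP_deriv (c : ℕ → ℂ) (N : ℕ) (u : ℝ) : HasDerivAt (DP c N) (DP (cd c) N u) u := by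
  unfold DP
  refine HasDerivAt.fun_sum fun n hn => ?_
  rw [Finset.mem_Icc] at hn
  have hn0 : (n : ℂ) ≠ 0 := by
    have : n ≠ 0 := by omega
    exact_mod_cast this
  have h1 : HasDerivAt (fun z : ℂ => -(1 + z * I)) (-I) (u : ℂ) := by
    have h0 := (((hasDerivAt_id (u : ℂ)).mul_const I).const_add 1).fun_neg
    rwa [one_mul] at h0
  have h2 := ((h1.const_cpow (c := (n : ℂ)) (Or.inl hn0)).const_mul (c n)).comp_ofReal
  have h3 : c n * ((n : ℂ) ^ (-(1 + (u : ℂ) * I)) * Complex.log n * -I) =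
      cd c n * (n : ℂ) ^ (-(1 + u * I : ℂ)) := by
    unfold cd
    rw [← Complex.natCast_log]
    ring
  rw [← h3]
  exact h2

lemma DP_cont (c : ℕ → ℂ) (N : ℕ) : Continuous (DP c N) :=
  continuous_iff_continuousAt.2 fun u => (DP_deriv c N u).continuousAt

/-- A partial sum is uniformly close to the sum. -/
lemma close (P : Finset ℕ) (hP : ∀ p ∈ P, p.Prime) : ∃ N : ℕ, ∀ u : ℝ,
    ‖Complex.exp (∑ p ∈ P, (p : ℂ) ^ (-(1 / 2 + u * I : ℂ))) - DP (cc P) N u‖ ≤ 1 / 2 := by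
  have hs := (euler P hP (1 / 2 : ℂ)).1
  have hn : ∀ (n : ℕ) (u : ℝ), ‖(aa P n : ℂ) * (n : ℂ) ^ (-(1 / 2 + u * I : ℂ))‖ =
      ‖(aa P n : ℂ) * (n : ℂ) ^ (-(1 / 2 : ℂ))‖ := by
    intro n u
    rcases Nat.eq_zero_or_pos n with h | h
    · subst h
      rw [aa_zero]
      simp
    · rw [norm_mul, norm_mul, Complex.norm_natCast_cpow_of_pos h, Complex.norm_natCast_cpow_of_pos h]
      simp
  set S : ℝ := ∑' n : ℕ, ‖(aa P n : ℂ) * (n : ℂ) ^ (-(1 / 2 : ℂ))‖ with hS
  have ht := (hs.hasSum.tendsto_sum_nat).comp (tendsto_add_atTop_nat 1)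
  obtain ⟨N, hN⟩ := (ht.eventually (lt_mem_nhds (show S - 1 / 2 < S by linarith))).exists
  simp only [Function.comp_apply] at hN
  refine ⟨N, fun u => ?_⟩
  have h1 := (euler P hP (1 / 2 + u * I)).2
  have h2 : DP (cc P) N u = ∑ n ∈ Finset.range (N + 1),
      (aa P n : ℂ) * (n : ℂ) ^ (-(1 / 2 + u * I : ℂ)) := by
    rw [DP_cc]
    refine Finset.sum_subset (fun n hn => ?_) fun n hn hn' => ?_
    · rw [Finset.mem_Icc] at hn
      rw [Finset.mem_range]
      omega
    · rw [Finset.mem_range] at hn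
      rw [Finset.mem_Icc] at hn'
      have : n = 0 := by omega
      rw [this, aa_zero]
      simp
  rw [h2]
  have h3 := (hasSum_nat_add_iff' (N + 1)).2 h1
  have h4 := (hasSum_nat_add_iff' (N + 1)).2 hs.hasSum
  have h5 := h3.norm_le_of_bounded h4 fun n => le_of_eq (hn _ _)
  linarith

/-! ## Sobolev and Markov -/

/-- The one-dimensional Sobolev inequality for the square. -/
lemma sob {f f' : ℝ → ℂ} (hf : ∀ x, HasDerivAt f (f' x) x) (hf' : Continuous f') {L : ℝ}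
    (hL : 0 < L) (u : ℝ) :
    ‖f u‖ ^ 2 ≤ ∫ v in u..(u + 1), ((1 + L) * ‖f v‖ ^ 2 + ‖f' v‖ ^ 2 / L) := by
  have hfc : Continuous f := continuous_iff_continuousAt.2 fun x => (hf x).continuousAt
  have hB : Continuous fun w => 2 * ‖f w‖ * ‖f' w‖ := by fun_prop
  have key : ∀ v ∈ Icc u (u + 1), ‖f u‖ ^ 2 ≤ ‖f v‖ ^ 2 + ∫ w in u..(u + 1), 2 * ‖f w‖ * ‖f' w‖ := by
    intro v hv
    have h1 : ∫ w in u..v, 2 * f w * f' w = f v ^ 2 - f u ^ 2 := by
      have hc2 : Continuous fun x => 2 * f x * f' x := by fun_prop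
      refine intervalIntegral.integral_eq_sub_of_hasDerivAt (f := fun x => f x ^ 2)
        (fun x _ => ?_) (hc2.intervalIntegrable _ _)
      have := (hf x).fun_pow 2
      simpa using this
    have h2 : ‖∫ w in u..v, 2 * f w * f' w‖ ≤ ∫ w in u..v, 2 * ‖f w‖ * ‖f' w‖ := by
      refine (intervalIntegral.norm_integral_le_integral_norm hv.1).trans (le_of_eq ?_)
      refine intervalIntegral.integral_congr fun w _ => ?_
      simp
    have h3 : ∫ w in u..v, 2 * ‖f w‖ * ‖f' w‖ ≤ ∫ w in u..(u + 1), 2 * ‖f w‖ * ‖f' w‖ := by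
      refine intervalIntegral.integral_mono_interval le_rfl hv.1 hv.2 ?_
        (hB.intervalIntegrable _ _)
      exact ae_of_all _ fun w => by positivity
    have h4 : ‖f u‖ ^ 2 ≤ ‖f v‖ ^ 2 + ‖f v ^ 2 - f u ^ 2‖ := by
      rw [← norm_pow, ← norm_pow]
      have := norm_sub_norm_le (f u ^ 2) (f v ^ 2)
      rw [norm_sub_rev] at this
      linarith
    rw [h1] at h2
    linarith
  have h5 : ∫ v in u..(u + 1), ‖f u‖ ^ 2 ≤
      ∫ v in u..(u + 1), (‖f v‖ ^ 2 + ∫ w in u..(u + 1), 2 * ‖f w‖ * ‖f' w‖) := by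
    refine intervalIntegral.integral_mono_on (by linarith) (by simp)
      (Continuous.intervalIntegrable (by fun_prop) _ _) key
  have h6 : ∫ v in u..(u + 1), (‖f v‖ ^ 2 + ∫ w in u..(u + 1), 2 * ‖f w‖ * ‖f' w‖) =
      ∫ v in u..(u + 1), (‖f v‖ ^ 2 + 2 * ‖f v‖ * ‖f' v‖) := by
    rw [intervalIntegral.integral_add (Continuous.intervalIntegrable (by fun_prop) _ _) (by simp),
      intervalIntegral.integral_add (Continuous.intervalIntegrable (by fun_prop) _ _)
      (hB.intervalIntegrable _ _)]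
    simp
  have h7 : ∫ v in u..(u + 1), (‖f v‖ ^ 2 + 2 * ‖f v‖ * ‖f' v‖) ≤
      ∫ v in u..(u + 1), ((1 + L) * ‖f v‖ ^ 2 + ‖f' v‖ ^ 2 / L) := by
    refine intervalIntegral.integral_mono_on (by linarith)
      (Continuous.intervalIntegrable (by fun_prop) _ _)
      (Continuous.intervalIntegrable (by fun_prop) _ _) fun v _ => ?_
    have h8 : 2 * ‖f v‖ * ‖f' v‖ ≤ L * ‖f v‖ ^ 2 + ‖f' v‖ ^ 2 / L := by
      have h9 : L * ‖f v‖ ^ 2 + ‖f' v‖ ^ 2 / L - 2 * ‖f v‖ * ‖f' v‖ =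
          (L * ‖f v‖ - ‖f' v‖) ^ 2 / L := by
        field_simp
        ring
      have h10 : 0 ≤ (L * ‖f v‖ - ‖f' v‖) ^ 2 / L := by positivity
      linarith
    linarith
  have h11 : ∫ v in u..(u + 1), ‖f u‖ ^ 2 = ‖f u‖ ^ 2 := by simp
  linarith

/-- Markov and Fubini for the windows. -/
lemma mark {G : ℝ → ℝ} (hG : Continuous G) (h0 : ∀ x, 0 ≤ G x) {T lam A : ℝ} (hlam : 1 ≤ lam)
    (hT : lam + 1 ≤ T) :
    ENNReal.ofReal A * volume {t : ℝ | T ≤ t ∧ t ≤ 2 * T ∧
      A ≤ ∫ v in (t - lam)..(t + lam + 1), G v} ≤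
      (∫⁻ v in Icc (-(3 * T)) (3 * T), ENNReal.ofReal (G v)) * ENNReal.ofReal (2 * lam + 1) := by
  set H : ℝ → ENNReal := fun t => ∫⁻ w in Icc (-lam) (lam + 1), ENNReal.ofReal (G (t + w)) with hH
  have hGm : Measurable fun x => ENNReal.ofReal (G x) := hG.measurable.ennreal_ofReal
  have hm2 : Measurable fun z : ℝ × ℝ => ENNReal.ofReal (G (z.1 + z.2)) :=
    hGm.comp (measurable_fst.add measurable_snd)
  have hHm : Measurable H := hm2.lintegral_prod_right'
  have h1 : {t : ℝ | T ≤ t ∧ t ≤ 2 * T ∧ A ≤ ∫ v in (t - lam)..(t + lam + 1), G v} ⊆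
      {t | ENNReal.ofReal A ≤ H t} ∩ Icc T (2 * T) := by
    rintro t ⟨h1, h2, h3⟩
    refine ⟨?_, h1, h2⟩
    have h4 : ∫ v in (t - lam)..(t + lam + 1), G v = ∫ w in Icc (-lam) (lam + 1), G (t + w) := by
      rw [integral_Icc_eq_integral_Ioc, ← intervalIntegral.integral_of_le (by linarith),
        intervalIntegral.integral_comp_add_left]
      congr 1
      ring
    have h5 : IntegrableOn (fun w => G (t + w)) (Icc (-lam) (lam + 1)) :=
      Continuous.integrableOn_Icc (by fun_prop)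
    change ENNReal.ofReal A ≤ ∫⁻ w in Icc (-lam) (lam + 1), ENNReal.ofReal (G (t + w))
    rw [← ofReal_integral_eq_lintegral_ofReal h5 (ae_of_all _ fun w => h0 _), ← h4]
    exact ENNReal.ofReal_le_ofReal h3
  have h2 : ENNReal.ofReal A * (volume.restrict (Icc T (2 * T))) {t | ENNReal.ofReal A ≤ H t} ≤
      ∫⁻ t in Icc T (2 * T), H t := mul_meas_ge_le_lintegral hHm _
  have h3 : ∫⁻ t in Icc T (2 * T), H t ≤
      ∫⁻ w in Icc (-lam) (lam + 1), ∫⁻ v in Icc (-(3 * T)) (3 * T), ENNReal.ofReal (G v) := by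
    rw [hH, lintegral_lintegral_swap hm2.aemeasurable]
    refine setLIntegral_mono measurable_const fun w hw => ?_
    rw [← lintegral_indicator measurableSet_Icc, ← lintegral_indicator measurableSet_Icc,
      ← lintegral_add_right_eq_self ((Icc (-(3 * T)) (3 * T)).indicator
        fun a => ENNReal.ofReal (G a)) w]
    refine lintegral_mono fun t => ?_
    by_cases ht : t ∈ Icc T (2 * T)
    · have ht2 : t + w ∈ Icc (-(3 * T)) (3 * T) :=
        ⟨by linarith [ht.1, hw.1], by linarith [ht.2, hw.2]⟩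
      rw [Set.indicator_of_mem ht, Set.indicator_of_mem ht2]
    · rw [Set.indicator_of_notMem ht]
      exact zero_le
  calc ENNReal.ofReal A * volume {t : ℝ | T ≤ t ∧ t ≤ 2 * T ∧
        A ≤ ∫ v in (t - lam)..(t + lam + 1), G v} ≤
      ENNReal.ofReal A * (volume.restrict (Icc T (2 * T))) {t | ENNReal.ofReal A ≤ H t} := by
        refine mul_le_mul_right ((measure_mono h1).trans ?_) _
        exact Measure.le_restrict_apply _ _
    _ ≤ ∫⁻ w in Icc (-lam) (lam + 1), ∫⁻ v in Icc (-(3 * T)) (3 * T), ENNReal.ofReal (G v) :=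
        h2.trans h3
    _ = (∫⁻ v in Icc (-(3 * T)) (3 * T), ENNReal.ofReal (G v)) * ENNReal.ofReal (2 * lam + 1) := by
        rw [lintegral_const, Measure.restrict_apply_univ, Real.volume_Icc]
        congr 2
        ring

/-- the mean value theorem on `[-3T, 3T]` -/
lemma mean (N : ℕ) (c : ℕ → ℂ) {T : ℝ} (hT : 0 < T) (hN : Real.pi * N ≤ T) {B : ℝ}
    (hB : ∑ n ∈ Finset.Icc 1 N, ‖c n‖ ^ 2 / (n : ℝ) ^ 2 ≤ B) :
    Integrable (fun t : ℝ => ‖DP c N t‖ ^ 2 * Real.exp (-(1 / (3 * T) * |t|))) ∧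
    ∫ t : ℝ, ‖DP c N t‖ ^ 2 * Real.exp (-(1 / (3 * T) * |t|)) ≤ 12 * T * B := by
  have hb : 0 < 1 / (3 * T) := by positivity
  obtain ⟨h1, h2⟩ := G7.mvtx_int N c hb
  refine ⟨h1, h2.trans ?_⟩
  calc ∑ n ∈ Finset.Icc 1 N, (6 * Real.pi * n + 2 / (1 / (3 * T))) * (‖c n‖ ^ 2 / (n : ℝ) ^ 2) ≤
      ∑ n ∈ Finset.Icc 1 N, 12 * T * (‖c n‖ ^ 2 / (n : ℝ) ^ 2) := by
        refine Finset.sum_le_sum fun n hn => mul_le_mul_of_nonneg_right ?_ (by positivity)
        rw [Finset.mem_Icc] at hn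
        have h3 : (n : ℝ) ≤ N := by exact_mod_cast hn.2
        have h4 : Real.pi * n ≤ Real.pi * N := mul_le_mul_of_nonneg_left h3 Real.pi_pos.le
        have h5 : 2 / (1 / (3 * T)) = 6 * T := by
          field_simp
          ring
        rw [h5]
        nlinarith
    _ = 12 * T * ∑ n ∈ Finset.Icc 1 N, ‖c n‖ ^ 2 / (n : ℝ) ^ 2 := by rw [Finset.mul_sum]
    _ ≤ 12 * T * B := mul_le_mul_of_nonneg_left hB (by positivity)

/-- **The general form**: any finite set of primes. -/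
theorem typ_gen : ∃ C : ℝ, 0 < C ∧ ∀ (P : Finset ℕ) (y : ℕ) (lam K : ℝ), 2 ≤ y →
    (∀ p ∈ P, p.Prime ∧ p ≤ y) → 1 ≤ lam → 0 ≤ K →
    ∃ T0 : ℝ, 10 < T0 ∧ ∀ T : ℝ, T0 ≤ T →
      volume {t : ℝ | T ≤ t ∧ t ≤ 2 * T ∧ ∃ u : ℝ, |u - t| ≤ lam ∧
        ∑ p ∈ P, 1 / (p : ℝ) + K < (∑ p ∈ P, (p : ℂ) ^ (-(1 / 2 + u * I : ℂ))).re} ≤
        ENNReal.ofReal (C * lam * Real.log y * Real.exp (-∑ p ∈ P, 1 / (p : ℝ)) *
          Real.exp (-(2 * K)) * T) := by
  obtain ⟨C', hC'0, hC'⟩ := shift_le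
  refine ⟨720 * Real.exp (1 + C'), by positivity, fun P y lam K hy hPy hlam hK => ?_⟩
  have hP : ∀ p ∈ P, p.Prime := fun p hp => (hPy p hp).1
  set V : ℝ := ∑ p ∈ P, 1 / (p : ℝ) with hV
  have hV0 : 0 ≤ V := Finset.sum_nonneg fun _ _ => by positivity
  set L : ℝ := Real.log y with hL
  have hy2 : (2 : ℝ) ≤ y := by exact_mod_cast hy
  have hL2 : 1 / 2 < L := by
    have h1 := Real.log_two_gt_d9
    have h2 : Real.log 2 ≤ L := Real.log_le_log (by norm_num) hy2
    linarith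
  have hL0 : 0 < L := by linarith
  obtain ⟨N, hN⟩ := close P hP
  refine ⟨max 11 (max (lam + 1) (Real.pi * N)), lt_max_of_lt_left (by norm_num), fun T hT => ?_⟩
  have hT11 : 11 ≤ T := (le_max_left _ _).trans hT
  have hTlam : lam + 1 ≤ T := ((le_max_left _ _).trans (le_max_right _ _)).trans hT
  have hTN : Real.pi * N ≤ T := ((le_max_right _ _).trans (le_max_right _ _)).trans hT
  have hT0 : 0 < T := by linarith
  set D : ℝ → ℂ := DP (cc P) N with hD
  set D' : ℝ → ℂ := DP (cd (cc P)) N with hD'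
  have hDD : ∀ x, HasDerivAt D (D' x) x := fun x => DP_deriv (cc P) N x
  have hDc : Continuous D := DP_cont _ _
  have hDc' : Continuous D' := DP_cont _ _
  set G : ℝ → ℝ := fun v => (1 + L) * ‖D v‖ ^ 2 + ‖D' v‖ ^ 2 / L with hG
  have hGc : Continuous G := by
    rw [hG]
    fun_prop
  have hG0 : ∀ x, 0 ≤ G x := fun x => by
    rw [hG]
    positivity
  set A : ℝ := Real.exp (2 * (V + K)) / 4 with hA
  have hA0 : 0 < A := by positivity
  -- the set
  have h1 : {t : ℝ | T ≤ t ∧ t ≤ 2 * T ∧ ∃ u : ℝ, |u - t| ≤ lam ∧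
      V + K < (∑ p ∈ P, (p : ℂ) ^ (-(1 / 2 + u * I : ℂ))).re} ⊆
      {t : ℝ | T ≤ t ∧ t ≤ 2 * T ∧ A ≤ ∫ v in (t - lam)..(t + lam + 1), G v} := by
    rintro t ⟨h1, h2, u, h3, h4⟩
    refine ⟨h1, h2, ?_⟩
    have h5 := hN u
    have h6 : Real.exp (V + K) ≤ ‖Complex.exp (∑ p ∈ P, (p : ℂ) ^ (-(1 / 2 + u * I : ℂ)))‖ := by
      rw [Complex.norm_exp]
      exact Real.exp_le_exp.2 h4.le
    have h7 : 1 ≤ Real.exp (V + K) := Real.one_le_exp (by linarith)
    have h8 : Real.exp (V + K) / 2 ≤ ‖D u‖ := by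
      have h9 := norm_sub_norm_le (Complex.exp (∑ p ∈ P, (p : ℂ) ^ (-(1 / 2 + u * I : ℂ)))) (D u)
      have h10 : ‖Complex.exp (∑ p ∈ P, (p : ℂ) ^ (-(1 / 2 + u * I : ℂ))) - D u‖ ≤ 1 / 2 := h5
      linarith
    have h9 : A ≤ ‖D u‖ ^ 2 := by
      rw [hA, show 2 * (V + K) = (V + K) + (V + K) by ring, Real.exp_add]
      have h11 : 0 ≤ Real.exp (V + K) := (Real.exp_pos _).le
      nlinarith
    refine h9.trans ((sob hDD hDc' hL0 u).trans ?_)
    obtain ⟨h12, h13⟩ := abs_le.1 h3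
    refine intervalIntegral.integral_mono_interval (by linarith) (by linarith) (by linarith) ?_
      (hGc.intervalIntegrable _ _)
    exact ae_of_all _ fun w => hG0 w
  have h2 := mark hGc hG0 (A := A) hlam hTlam
  -- the mean values
  have hB1 : ∑ n ∈ Finset.Icc 1 N, ‖cc P n‖ ^ 2 / (n : ℝ) ^ 2 ≤ Real.exp V := by
    refine le_trans (le_of_eq (Finset.sum_congr rfl fun n hn => ?_)) (sum1 P hP N)
    rw [Finset.mem_Icc] at hn
    have hn0 : (0 : ℝ) < n := by exact_mod_cast hn.1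
    rw [norm_cc P hn.1]
    field_simp
  have hB2 : ∑ n ∈ Finset.Icc 1 N, ‖cd (cc P) n‖ ^ 2 / (n : ℝ) ^ 2 ≤
      2 * L ^ 2 * Real.exp (V + C') := by
    refine le_trans (le_trans (le_of_eq (Finset.sum_congr rfl fun n hn => ?_)) (sum2 P hP N y hy)) ?_
    · rw [Finset.mem_Icc] at hn
      have hn0 : (0 : ℝ) < n := by exact_mod_cast hn.1
      unfold cd
      rw [norm_mul, mul_pow, norm_cc P hn.1, norm_neg, norm_mul, Complex.norm_I, one_mul,
        Complex.norm_real, Real.norm_eq_abs, sq_abs]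
      field_simp
    · exact mul_le_mul_of_nonneg_left (Real.exp_le_exp.2 (hC' P y hy hPy)) (by positivity)
  obtain ⟨i1, m1⟩ := mean N (cc P) hT0 hTN hB1
  obtain ⟨i2, m2⟩ := mean N (cd (cc P)) hT0 hTN hB2
  have h3 : ∫⁻ v in Icc (-(3 * T)) (3 * T), ENNReal.ofReal (G v) ≤
      ENNReal.ofReal (Real.exp 1 * (60 * T * L * Real.exp (V + C'))) := by
    have i3 : Integrable fun v => Real.exp 1 * ((1 + L) * (‖D v‖ ^ 2 *
        Real.exp (-(1 / (3 * T) * |v|))) + (‖D' v‖ ^ 2 * Real.exp (-(1 / (3 * T) * |v|))) / L) :=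
      ((i1.const_mul (1 + L)).add (i2.div_const L)).const_mul _
    have h4 : ∫⁻ v in Icc (-(3 * T)) (3 * T), ENNReal.ofReal (G v) ≤
        ∫⁻ v : ℝ, ENNReal.ofReal (Real.exp 1 * ((1 + L) * (‖D v‖ ^ 2 *
        Real.exp (-(1 / (3 * T) * |v|))) + (‖D' v‖ ^ 2 * Real.exp (-(1 / (3 * T) * |v|))) / L)) := by
      refine le_trans ?_ (setLIntegral_le_lintegral (Icc (-(3 * T)) (3 * T)) _)
      refine setLIntegral_mono (Continuous.measurable (by fun_prop)).ennreal_ofReal fun v hv => ?_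
      refine ENNReal.ofReal_le_ofReal ?_
      have h5 : |v| ≤ 3 * T := abs_le.2 hv
      have h6 : 1 ≤ Real.exp 1 * Real.exp (-(1 / (3 * T) * |v|)) := by
        rw [← Real.exp_add]
        refine Real.one_le_exp ?_
        have h7 : 1 / (3 * T) * |v| ≤ 1 := by
          rw [one_div_mul_eq_div, div_le_one (by positivity)]
          exact h5
        linarith
      calc G v ≤ (Real.exp 1 * Real.exp (-(1 / (3 * T) * |v|))) * G v :=
            le_mul_of_one_le_left (hG0 v) h6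
        _ = _ := by
            rw [hG]
            ring
    refine h4.trans ?_
    rw [← ofReal_integral_eq_lintegral_ofReal i3 (ae_of_all _ fun v => by positivity)]
    refine ENNReal.ofReal_le_ofReal ?_
    rw [integral_const_mul]
    refine mul_le_mul_of_nonneg_left ?_ (Real.exp_pos 1).le
    rw [integral_add (i1.const_mul (1 + L)) (i2.div_const L), integral_const_mul,
      integral_div]
    have h8 : Real.exp V ≤ Real.exp (V + C') := Real.exp_le_exp.2 (by linarith)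
    have h9 : (∫ v : ℝ, ‖D' v‖ ^ 2 * Real.exp (-(1 / (3 * T) * |v|))) / L ≤
        24 * T * L * Real.exp (V + C') := by
      rw [div_le_iff₀ hL0]
      refine m2.trans (le_of_eq ?_)
      ring
    have h10 : (1 + L) * (∫ v : ℝ, ‖D v‖ ^ 2 * Real.exp (-(1 / (3 * T) * |v|))) ≤
        36 * T * L * Real.exp (V + C') := by
      calc (1 + L) * (∫ v : ℝ, ‖D v‖ ^ 2 * Real.exp (-(1 / (3 * T) * |v|))) ≤
          (1 + L) * (12 * T * Real.exp V) := mul_le_mul_of_nonneg_left m1 (by positivity)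
        _ ≤ (3 * L) * (12 * T * Real.exp (V + C')) := by
            refine mul_le_mul (by linarith) ?_ (by positivity) (by positivity)
            exact mul_le_mul_of_nonneg_left h8 (by positivity)
        _ = 36 * T * L * Real.exp (V + C') := by ring
    linarith
  have h4 : ENNReal.ofReal A * volume {t : ℝ | T ≤ t ∧ t ≤ 2 * T ∧ ∃ u : ℝ, |u - t| ≤ lam ∧
      V + K < (∑ p ∈ P, (p : ℂ) ^ (-(1 / 2 + u * I : ℂ))).re} ≤
      ENNReal.ofReal (Real.exp 1 * (60 * T * L * Real.exp (V + C')) * (3 * lam)) := by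
    refine (mul_le_mul_right (measure_mono h1) _).trans (h2.trans ?_)
    rw [ENNReal.ofReal_mul (by positivity)]
    exact mul_le_mul' h3 (ENNReal.ofReal_le_ofReal (by linarith))
  have h5 : volume {t : ℝ | T ≤ t ∧ t ≤ 2 * T ∧ ∃ u : ℝ, |u - t| ≤ lam ∧
      V + K < (∑ p ∈ P, (p : ℂ) ^ (-(1 / 2 + u * I : ℂ))).re} ≤
      ENNReal.ofReal (Real.exp 1 * (60 * T * L * Real.exp (V + C')) * (3 * lam)) /
        ENNReal.ofReal A := by
    rw [ENNReal.le_div_iff_mul_le (Or.inl (by simpa using hA0)) (Or.inl ENNReal.ofReal_ne_top),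
      mul_comm]
    exact h4
  refine h5.trans (le_of_eq ?_)
  rw [← ENNReal.ofReal_div_of_pos hA0]
  congr 1
  rw [hA, div_eq_iff (by positivity)]
  have e1 : Real.exp (2 * (V + K)) = Real.exp V * Real.exp V * Real.exp (2 * K) := by
    rw [← Real.exp_add, ← Real.exp_add]
    ring_nf
  have e2 : Real.exp (V + C') = Real.exp V * Real.exp C' := Real.exp_add _ _
  have e3 : Real.exp (1 + C') = Real.exp 1 * Real.exp C' := Real.exp_add _ _
  rw [e1, e2, e3, Real.exp_neg, Real.exp_neg]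
  have n1 : Real.exp V ≠ 0 := (Real.exp_pos _).ne'
  have n2 : Real.exp (2 * K) ≠ 0 := (Real.exp_pos _).ne'
  field_simp
  ring

/-! ## Mertens -/

/-- `log y ≤ e e^V`. -/
lemma merten (y : ℕ) (hy : 2 ≤ y) :
    Real.log y ≤ Real.exp 1 * Real.exp (∑ p ∈ (Finset.Icc 1 y).filter Nat.Prime, 1 / (p : ℝ)) := by
  set P := (Finset.Icc 1 y).filter Nat.Prime with hPdef
  let f : ℕ →* ℝ :=
    { toFun := fun n => (n : ℝ)⁻¹
      map_one' := by simp
      map_mul' := fun a b => by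
        push_cast
        rw [mul_inv] }
  have hf : ∀ {p : ℕ}, p.Prime → ‖f p‖ < 1 := by
    intro p hp
    change ‖((p : ℝ))⁻¹‖ < 1
    rw [Real.norm_of_nonneg (by positivity)]
    exact inv_lt_one_of_one_lt₀ (by exact_mod_cast hp.one_lt)
  have h := EulerProduct.summable_and_hasSum_factoredNumbers_prod_filter_prime_geometric hf P
  have h1 := (hasSum_subtype_iff_indicator (s := (Nat.factoredNumbers P : Set ℕ))).1 h.2
  have h2 : ∑ n ∈ Finset.Icc 1 y, (n : ℝ)⁻¹ ≤ ∏ p ∈ P with p.Prime, (1 - f p)⁻¹ := by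
    refine le_trans (le_of_eq (Finset.sum_congr rfl fun n hn => ?_))
      (sum_le_hasSum (Finset.Icc 1 y) (fun n _ => ?_) h1)
    · rw [Finset.mem_Icc] at hn
      rw [Set.indicator_of_mem]
      · rfl
      · change n ∈ Nat.factoredNumbers P
        rw [Nat.mem_factoredNumbers]
        refine ⟨by omega, fun p hp => ?_⟩
        rw [hPdef, Finset.mem_filter, Finset.mem_Icc]
        have hpp := Nat.prime_of_mem_primeFactorsList hp
        exact ⟨⟨hpp.one_le, (Nat.le_of_dvd (by omega) (Nat.dvd_of_mem_primeFactorsList hp)).trans hn.2⟩,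
          hpp⟩
    · refine Set.indicator_nonneg (fun n _ => ?_) n
      change 0 ≤ (n : ℝ)⁻¹
      positivity
  have h3 : ∏ p ∈ P with p.Prime, (1 - f p)⁻¹ ≤
      Real.exp (∑ p ∈ P, (1 / (p : ℝ) + 1 / (p * (p - 1)))) := by
    rw [Real.exp_sum, Finset.filter_true_of_mem (fun p hp => (Finset.mem_filter.1 hp).2)]
    refine Finset.prod_le_prod (fun p hp => ?_) fun p hp => ?_
    · have hp2 := (Finset.mem_filter.1 hp).2.two_le
      have hp2' : (2 : ℝ) ≤ p := by exact_mod_cast hp2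
      change 0 ≤ (1 - (p : ℝ)⁻¹)⁻¹
      have : (p : ℝ)⁻¹ ≤ 1 := inv_le_one_of_one_le₀ (by linarith)
      exact inv_nonneg.2 (by linarith)
    · have hp2 := (Finset.mem_filter.1 hp).2.two_le
      have hp2' : (2 : ℝ) ≤ p := by exact_mod_cast hp2
      change (1 - (p : ℝ)⁻¹)⁻¹ ≤ _
      have e1 : (1 - (p : ℝ)⁻¹)⁻¹ = (1 / (p : ℝ) + 1 / (p * (p - 1))) + 1 := by
        have n1 : (p : ℝ) ≠ 0 := by linarith
        have n2 : (p : ℝ) - 1 ≠ 0 := by linarith
        have n3 : 1 - (p : ℝ)⁻¹ ≠ 0 := by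
          intro h0
          apply n2
          field_simp at h0
          linarith
        rw [inv_eq_one_div, div_eq_iff n3]
        field_simp
        ring
      rw [e1]
      exact Real.add_one_le_exp _
  have h4 : ∑ p ∈ P, 1 / ((p : ℝ) * (p - 1)) ≤ 1 := by
    have h5 : ∀ Y : ℕ, 1 ≤ Y → ∑ n ∈ Finset.Icc 2 Y, 1 / ((n : ℝ) * (n - 1)) = 1 - 1 / Y := by
      intro Y hY
      induction Y, hY using Nat.le_induction with
      | base => simp
      | succ n hn ih =>
        rw [Finset.sum_Icc_succ_top (by omega), ih]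
        have hn0 : (n : ℝ) ≠ 0 := by
          have : n ≠ 0 := by omega
          exact_mod_cast this
        have hn1 : (n : ℝ) + 1 ≠ 0 := by positivity
        rw [show ((n + 1 : ℕ) : ℝ) = n + 1 by push_cast; ring, add_sub_cancel_right]
        field_simp
        ring
    have h6 : ∑ p ∈ P, 1 / ((p : ℝ) * (p - 1)) ≤ ∑ n ∈ Finset.Icc 2 y, 1 / ((n : ℝ) * (n - 1)) := by
      refine Finset.sum_le_sum_of_subset_of_nonneg (fun p hp => ?_) fun n hn _ => ?_
      · have := Finset.mem_filter.1 hp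
        rw [Finset.mem_Icc] at this ⊢
        exact ⟨this.2.two_le, this.1.2⟩
      · rw [Finset.mem_Icc] at hn
        have hn2 : (2 : ℝ) ≤ n := by exact_mod_cast hn.1
        have : (0 : ℝ) ≤ n - 1 := by linarith
        positivity
    rw [h5 y (by omega)] at h6
    have h7 : (0 : ℝ) ≤ 1 / y := by positivity
    linarith
  have h5 : Real.log y ≤ ∑ n ∈ Finset.Icc 1 y, (n : ℝ)⁻¹ := by
    have h6 := log_add_one_le_harmonic y
    rw [harmonic_eq_sum_Icc] at h6
    push_cast at h6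
    refine le_trans (Real.log_le_log (by positivity) (by linarith)) h6
  calc Real.log y ≤ ∑ n ∈ Finset.Icc 1 y, (n : ℝ)⁻¹ := h5
    _ ≤ Real.exp (∑ p ∈ P, (1 / (p : ℝ) + 1 / (p * (p - 1)))) := h2.trans h3
    _ ≤ Real.exp (1 + ∑ p ∈ P, 1 / (p : ℝ)) := by
        rw [Real.exp_le_exp, Finset.sum_add_distrib]
        linarith
    _ = _ := Real.exp_add _ _

end Pool.Agent.Lib.MP_6bc78b_nt.GP.H71.Typ
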